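import Mathlib
import Pool.Agent.Helper70.BLB.TLMonoid

/-!
Representations of the Temperley-Lieb monoid on functions of a chain of labels `a i` (sites) and
Booleans `x i` (gap between the sites `i - 1` and `i`): the operator `J i` projects the gap
`i + 1` to `false`, the operator `D i` changes the label of the site `i` and the two gaps at it.
All relations follow from local identities of the kernel of `D`.
-/

set_option autoImplicit false
set_option linter.unusedSectionVars false

namespace Pool.Agent.Gold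

open Helper70.BLB
open scoped Classical

variable {L : Type} [Fintype L]

/-- Functions on the configurations. -/
abbrev Fn (L : Type) : Type := (ℕ → Bool) → (ℕ → L) → ℝ

/-- Change the gaps `i` and `i + 1`. -/
def ux (x : ℕ → Bool) (i : ℕ) (x' y' : Bool) : ℕ → Bool :=
  fun j => if j = i then x' else if j = i + 1 then y' else x j

/-- Change the label of the site `i`. -/
def ua (a : ℕ → L) (i : ℕ) (a' : L) : ℕ → L := fun j => if j = i then a' else a j

@[simp] theorem ux_self (x : ℕ → Bool) (i : ℕ) (x' y' : Bool) : ux x i x' y' i = x' := by simp [ux]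
@[simp] theorem ux_succ (x : ℕ → Bool) (i : ℕ) (x' y' : Bool) : ux x i x' y' (i + 1) = y' := by
  simp [ux]
theorem ux_ne (x : ℕ → Bool) {i j : ℕ} (x' y' : Bool) (h1 : j ≠ i) (h2 : j ≠ i + 1) :
    ux x i x' y' j = x j := by simp [ux, h1, h2]
@[simp] theorem ua_self (a : ℕ → L) (i : ℕ) (a' : L) : ua a i a' i = a' := by simp [ua]
theorem ua_ne (a : ℕ → L) {i j : ℕ} (a' : L) (h : j ≠ i) : ua a i a' j = a j := by simp [ua, h]
@[simp] theorem ux_ux (x : ℕ → Bool) (i : ℕ) (x' y' x'' y'' : Bool) :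
    ux (ux x i x' y') i x'' y'' = ux x i x'' y'' := by
  funext j; unfold ux; split_ifs <;> rfl
@[simp] theorem ua_ua (a : ℕ → L) (i : ℕ) (a' a'' : L) : ua (ua a i a') i a'' = ua a i a'' := by
  funext j; unfold ua; split_ifs <;> rfl
theorem ux_id (x : ℕ → Bool) (i : ℕ) : ux x i (x i) (x (i + 1)) = x := by
  funext j; unfold ux; split_ifs with h1 h2
  · rw [h1]
  · rw [h2]
  · rfl
theorem ua_id (a : ℕ → L) (i : ℕ) : ua a i (a i) = a := by
  funext j; unfold ua; split_ifs with h1
  · rw [h1]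
  · rfl

/-- Admissible configurations. -/
def AD (adj : L → Bool → L → Bool) (x : ℕ → Bool) (a : ℕ → L) : Prop :=
  ∀ g, adj (a g) (x (g + 1)) (a (g + 1)) = true

theorem AD.upd {adj : L → Bool → L → Bool} {x : ℕ → Bool} {a : ℕ → L} (h : AD adj x a) {i : ℕ}
    {x' y' : Bool} {a' : L} (h1 : adj (a i) x' a' = true)
    (h2 : adj a' y' (a (i + 2)) = true) : AD adj (ux x (i + 1) x' y') (ua a (i + 1) a') := by
  intro g
  rcases lt_trichotomy g i with hg | rfl | hg
  · rw [ua_ne _ _ (by omega), ua_ne _ _ (by omega), ux_ne _ _ _ (by omega) (by omega)]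
    exact h g
  · rw [ua_ne _ _ (by omega), ux_self, ua_self]
    exact h1
  · by_cases hg2 : g = i + 1
    · subst hg2
      rw [ua_self, ux_succ, ua_ne _ _ (by omega)]
      exact h2
    · rw [ua_ne _ _ (by omega), ua_ne _ _ (by omega), ux_ne _ _ _ (by omega) (by omega)]
      exact h g

/-- Kernels. -/
abbrev Ker (L : Type) : Type := L → Bool → Bool → L → L → Bool → Bool → L → ℝ

/-- The kernel at the site `i + 1` of a configuration. -/
def kat (K : Ker L) (i : ℕ) (x : ℕ → Bool) (a : ℕ → L) (u : Bool × Bool × L) : ℝ :=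
  K (a i) (x (i + 1)) (x (i + 2)) (a (i + 2)) (a (i + 1)) u.1 u.2.1 u.2.2

/-- The change of a configuration at the site `i + 1`. -/
def cx (i : ℕ) (x : ℕ → Bool) (u : Bool × Bool × L) : ℕ → Bool := ux x (i + 1) u.1 u.2.1
def ca (i : ℕ) (a : ℕ → L) (u : Bool × Bool × L) : ℕ → L := ua a (i + 1) u.2.2

/-- The operator `J i`: the gap `i + 1` is `false`. -/
noncomputable def JJ (adj : L → Bool → L → Bool) (i : ℕ) : Module.End ℝ (Fn L) where
  toFun f := fun x a => if AD adj x a ∧ x (i + 1) = false then f x a else 0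
  map_add' f g := by
    funext x a
    simp only [Pi.add_apply]
    split_ifs <;> simp
  map_smul' c f := by
    funext x a
    simp only [Pi.smul_apply, smul_eq_mul, RingHom.id_apply]
    split_ifs <;> simp

/-- The operator `D (i + 1)`. -/
noncomputable def DD (adj : L → Bool → L → Bool) (K : Ker L) (i : ℕ) : Module.End ℝ (Fn L) where
  toFun f := fun x a => if AD adj x a then
    ∑ u : Bool × Bool × L, kat K i x a u * f (cx i x u) (ca i a u) else 0
  map_add' f g := by
    funext x a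
    simp only [Pi.add_apply]
    split_ifs
    · simp only [mul_add, Finset.sum_add_distrib]
    · simp
  map_smul' c f := by
    funext x a
    simp only [Pi.smul_apply, smul_eq_mul, RingHom.id_apply]
    split_ifs
    · rw [Finset.mul_sum]
      exact Finset.sum_congr rfl fun _ _ => by ring
    · simp

/-- The local identities. -/
structure Loc (adj : L → Bool → L → Bool) (K : Ker L) (q : ℝ) : Prop where
  kadj : ∀ p x y r a x' y' a', K p x y r a x' y' a' ≠ 0 → adj p x' a' = true ∧ adj a' y' r = true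
  sq : ∀ p x a, adj p x a = true → ∀ y r, adj a y r = true → ∀ x'' y'' a'',
    ∑ u : Bool × Bool × L, K p x y r a u.1 u.2.1 u.2.2 * K p u.1 u.2.1 r u.2.2 x'' y'' a'' =
      q * K p x y r a x'' y'' a''
  jdj1 : ∀ p x a, adj p x a = true → ∀ r, adj a false r = true → ∀ x' a',
    K p x false r a x' false a' = if x' = x ∧ a' = a then 1 else 0
  jdj2 : ∀ p a, adj p false a = true → ∀ y r, adj a y r = true → ∀ y' a',
    K p false y r a false y' a' = if y' = y ∧ a' = a then 1 else 0
  djd1 : ∀ p x a, adj p x a = true → ∀ y r, adj a y r = true → ∀ x'' y'' a'',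
    ∑ u : Bool × Bool × L, (if u.2.1 = false then
      K p x y r a u.1 u.2.1 u.2.2 * K p u.1 u.2.1 r u.2.2 x'' y'' a'' else 0) =
      K p x y r a x'' y'' a''
  djd2 : ∀ p x a, adj p x a = true → ∀ y r, adj a y r = true → ∀ x'' y'' a'',
    ∑ u : Bool × Bool × L, (if u.1 = false then
      K p x y r a u.1 u.2.1 u.2.2 * K p u.1 u.2.1 r u.2.2 x'' y'' a'' else 0) =
      K p x y r a x'' y'' a''
  comm : ∀ p x a, adj p x a = true → ∀ y b, adj a y b = true → ∀ z r, adj b z r = true →
    ∀ x' a' y'' b'' z'',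
    ∑ y' : Bool, K p x y b a x' y' a' * K a' y' z r b y'' z'' b'' =
    ∑ y' : Bool, K a y z r b y' z'' b'' * K p x y' b'' a x' y'' a'

section

variable {adj : L → Bool → L → Bool} {K : Ker L} {q : ℝ}

theorem JJ_apply (i : ℕ) (f : Fn L) (x : ℕ → Bool) (a : ℕ → L) :
    JJ adj i f x a = if AD adj x a ∧ x (i + 1) = false then f x a else 0 := rfl

theorem DD_apply (i : ℕ) (f : Fn L) (x : ℕ → Bool) (a : ℕ → L) :
    DD adj K i f x a = if AD adj x a then
      ∑ u : Bool × Bool × L, kat K i x a u * f (cx i x u) (ca i a u) else 0 := rfl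

theorem Loc.upd (H : Loc adj K q) {x : ℕ → Bool} {a : ℕ → L} (h : AD adj x a) {i : ℕ}
    {u : Bool × Bool × L} (hK : kat K i x a u ≠ 0) : AD adj (cx i x u) (ca i a u) := by
  obtain ⟨h1, h2⟩ := H.kadj _ _ _ _ _ _ _ _ hK
  exact h.upd h1 h2

theorem Loc.kmul (H : Loc adj K q) {x : ℕ → Bool} {a : ℕ → L} (h : AD adj x a) {i : ℕ}
    {u : Bool × Bool × L} {P : Prop} [Decidable P] (F : ℝ)
    (hP : AD adj (cx i x u) (ca i a u) → P) :
    kat K i x a u * (if P then F else 0) = kat K i x a u * F := by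
  by_cases hK : kat K i x a u = 0
  · rw [hK, zero_mul, zero_mul]
  · rw [if_pos (hP (H.upd h hK))]

theorem cx_ne {i j : ℕ} (x : ℕ → Bool) (u : Bool × Bool × L) (h1 : j ≠ i + 1) (h2 : j ≠ i + 2) :
    cx i x u j = x j := ux_ne _ _ _ h1 h2
theorem ca_ne {i j : ℕ} (a : ℕ → L) (u : Bool × Bool × L) (h1 : j ≠ i + 1) :
    ca i a u j = a j := ua_ne _ _ h1
@[simp] theorem cx_1 (i : ℕ) (x : ℕ → Bool) (u : Bool × Bool × L) : cx i x u (i + 1) = u.1 :=
  ux_self _ _ _ _
@[simp] theorem cx_2 (i : ℕ) (x : ℕ → Bool) (u : Bool × Bool × L) : cx i x u (i + 2) = u.2.1 :=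
  ux_succ _ _ _ _
@[simp] theorem ca_1 (i : ℕ) (a : ℕ → L) (u : Bool × Bool × L) : ca i a u (i + 1) = u.2.2 :=
  ua_self _ _ _
@[simp] theorem ca_0 (i : ℕ) (a : ℕ → L) (u : Bool × Bool × L) : ca i a u i = a i :=
  ua_ne _ _ (by omega)
@[simp] theorem ca_2 (i : ℕ) (a : ℕ → L) (u : Bool × Bool × L) : ca i a u (i + 2) = a (i + 2) :=
  ua_ne _ _ (by omega)
@[simp] theorem cx_cx (i : ℕ) (x : ℕ → Bool) (u v : Bool × Bool × L) :
    cx i (cx i x u) v = cx i x v := ux_ux _ _ _ _ _ _
@[simp] theorem ca_ca (i : ℕ) (a : ℕ → L) (u v : Bool × Bool × L) :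
    ca i (ca i a u) v = ca i a v := ua_ua _ _ _ _

theorem kat_upd (i : ℕ) (x : ℕ → Bool) (a : ℕ → L) (u v : Bool × Bool × L) :
    kat K i (cx i x u) (ca i a u) v =
      K (a i) u.1 u.2.1 (a (i + 2)) u.2.2 v.1 v.2.1 v.2.2 := by
  unfold kat
  simp

theorem JJ_sq (i : ℕ) : JJ adj i * JJ adj i = JJ adj i := by
  ext f x a
  simp only [Module.End.mul_apply, JJ_apply]
  split_ifs <;> rfl

theorem JJ_comm (i j : ℕ) : JJ adj i * JJ adj j = JJ adj j * JJ adj i := by
  ext f x a
  simp only [Module.End.mul_apply, JJ_apply]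
  split_ifs <;> rfl

theorem JD_comm (H : Loc adj K q) {i j : ℕ} (h1 : i ≠ j) (h2 : i ≠ j + 1) :
    JJ adj i * DD adj K j = DD adj K j * JJ adj i := by
  ext f x a
  simp only [Module.End.mul_apply]
  rw [JJ_apply, DD_apply, DD_apply]
  by_cases hA : AD adj x a
  · rw [if_pos hA, if_pos hA]
    by_cases hx : x (i + 1) = false
    · rw [if_pos ⟨hA, hx⟩]
      refine Finset.sum_congr rfl fun u _ => ?_
      rw [JJ_apply, H.kmul hA _ fun h => ⟨h, by rw [cx_ne _ _ (by omega) (by omega)]; exact hx⟩]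
    · rw [if_neg (fun h => hx h.2)]
      symm
      refine Finset.sum_eq_zero fun u _ => ?_
      rw [JJ_apply, if_neg, mul_zero]
      rintro ⟨_, h⟩
      rw [cx_ne _ _ (by omega) (by omega)] at h
      exact hx h
  · rw [if_neg hA, if_neg (fun h => hA h.1), if_neg hA]

/-- Two operations at the same site. -/
theorem DD_same (H : Loc adj K q) (i : ℕ) {c : ℝ} (w : Bool × Bool × L → ℝ)
    (hw : ∀ p x a, adj p x a = true → ∀ y r, adj a y r = true → ∀ x'' y'' a'',
      ∑ u : Bool × Bool × L, w u * (K p x y r a u.1 u.2.1 u.2.2 *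
        K p u.1 u.2.1 r u.2.2 x'' y'' a'') = c * K p x y r a x'' y'' a'')
    (f : Fn L) (x : ℕ → Bool) (a : ℕ → L) (hA : AD adj x a) :
    ∑ u : Bool × Bool × L, w u * (kat K i x a u * DD adj K i f (cx i x u) (ca i a u)) =
      c * DD adj K i f x a := by
  have e1 : ∀ u, kat K i x a u * DD adj K i f (cx i x u) (ca i a u) =
      kat K i x a u * ∑ v : Bool × Bool × L,
        K (a i) u.1 u.2.1 (a (i + 2)) u.2.2 v.1 v.2.1 v.2.2 * f (cx i x v) (ca i a v) := by
    intro u
    rw [DD_apply, H.kmul hA _ id]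
    congr 1
    refine Finset.sum_congr rfl fun v _ => ?_
    rw [kat_upd, cx_cx, ca_ca]
  simp only [e1, Finset.mul_sum]
  rw [Finset.sum_comm, DD_apply, if_pos hA, Finset.mul_sum]
  refine Finset.sum_congr rfl fun v _ => ?_
  have := hw (a i) (x (i + 1)) (a (i + 1)) (hA i) (x (i + 2)) (a (i + 2)) (hA (i + 1)) v.1 v.2.1 v.2.2
  rw [← mul_assoc, show kat K i x a v = K (a i) (x (i + 1)) (x (i + 2)) (a (i + 2)) (a (i + 1))
    v.1 v.2.1 v.2.2 from rfl, ← this, Finset.sum_mul]
  refine Finset.sum_congr rfl fun u _ => ?_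
  unfold kat
  ring

theorem DD_sq (H : Loc adj K q) (i : ℕ) : DD adj K i * DD adj K i = q • DD adj K i := by
  ext f x a
  simp only [Module.End.mul_apply, LinearMap.smul_apply, Pi.smul_apply, smul_eq_mul]
  by_cases hA : AD adj x a
  · rw [← DD_same H i (fun _ => 1) (fun p x a h y r h' x'' y'' a'' => by
      simpa using H.sq p x a h y r h' x'' y'' a'') f x a hA]
    conv_lhs => rw [DD_apply, if_pos hA]
    simp
  · rw [DD_apply, if_neg hA, DD_apply, if_neg hA, mul_zero]

theorem DJD_right (H : Loc adj K q) (i : ℕ) :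
    DD adj K i * JJ adj (i + 1) * DD adj K i = DD adj K i := by
  ext f x a
  simp only [Module.End.mul_apply]
  by_cases hA : AD adj x a
  · have := DD_same H i (c := 1) (fun u => if u.2.1 = false then 1 else 0)
      (fun p x a h y r h' x'' y'' a'' => by
        rw [one_mul]
        simpa using H.djd1 p x a h y r h' x'' y'' a'') f x a hA
    rw [one_mul] at this
    rw [← this]
    conv_lhs => rw [DD_apply, if_pos hA]
    refine Finset.sum_congr rfl fun u _ => ?_
    rw [JJ_apply]
    have e : cx i x u (i + 1 + 1) = u.2.1 := cx_2 i x u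
    rw [e]
    by_cases hu : u.2.1 = false
    · rw [if_pos hu, one_mul, H.kmul hA _ fun h => ⟨h, hu⟩]
    · rw [if_neg hu, if_neg (fun h => hu h.2), mul_zero, zero_mul]
  · rw [DD_apply, if_neg hA, DD_apply, if_neg hA]

theorem DJD_left (H : Loc adj K q) (i : ℕ) :
    DD adj K i * JJ adj i * DD adj K i = DD adj K i := by
  ext f x a
  simp only [Module.End.mul_apply]
  by_cases hA : AD adj x a
  · have := DD_same H i (c := 1) (fun u => if u.1 = false then 1 else 0)
      (fun p x a h y r h' x'' y'' a'' => by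
        rw [one_mul]
        simpa using H.djd2 p x a h y r h' x'' y'' a'') f x a hA
    rw [one_mul] at this
    rw [← this]
    conv_lhs => rw [DD_apply, if_pos hA]
    refine Finset.sum_congr rfl fun u _ => ?_
    rw [JJ_apply, cx_1]
    by_cases hu : u.1 = false
    · rw [if_pos hu, one_mul, H.kmul hA _ fun h => ⟨h, hu⟩]
    · rw [if_neg hu, if_neg (fun h => hu h.2), mul_zero, zero_mul]
  · rw [DD_apply, if_neg hA, DD_apply, if_neg hA]

theorem JDJ_right (H : Loc adj K q) (i : ℕ) :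
    JJ adj (i + 1) * DD adj K i * JJ adj (i + 1) = JJ adj (i + 1) := by
  ext f x a
  simp only [Module.End.mul_apply]
  rw [JJ_apply, JJ_apply]
  by_cases h : AD adj x a ∧ x (i + 1 + 1) = false
  · obtain ⟨hA, hx⟩ := h
    have hx' : x (i + 2) = false := hx
    rw [if_pos ⟨hA, hx⟩, if_pos ⟨hA, hx⟩, DD_apply, if_pos hA,
      Finset.sum_eq_single (x (i + 1), false, a (i + 1))]
    · have e1 : kat K i x a (x (i + 1), false, a (i + 1)) = 1 := by
        unfold kat
        rw [hx', H.jdj1 _ _ _ (hA i) _ (by have := hA (i + 1); rw [hx] at this; exact this), if_pos]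
        exact ⟨rfl, rfl⟩
      have e2 : cx i x (x (i + 1), false, a (i + 1)) = x := by
        unfold cx
        simp only
        rw [← hx]
        exact ux_id x (i + 1)
      have e3 : ca i a (x (i + 1), false, a (i + 1)) = a := ua_id a (i + 1)
      rw [e1, e2, e3, one_mul, JJ_apply, if_pos ⟨hA, hx⟩]
    · rintro ⟨x', y', a'⟩ _ hne
      rw [JJ_apply]
      by_cases hy : y' = false
      · subst hy
        have e1 : kat K i x a (x', false, a') = 0 := by
          unfold kat
          rw [hx', H.jdj1 _ _ _ (hA i) _ (by have := hA (i + 1); rw [hx] at this; exact this), if_neg]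
          rintro ⟨rfl, rfl⟩
          exact hne rfl
        rw [e1, zero_mul]
      · rw [if_neg, mul_zero]
        rintro ⟨_, h⟩
        exact hy ((cx_2 i x (x', y', a')).symm.trans h)
    · simp
  · rw [if_neg h, if_neg h]

theorem JDJ_left (H : Loc adj K q) (i : ℕ) :
    JJ adj i * DD adj K i * JJ adj i = JJ adj i := by
  ext f x a
  simp only [Module.End.mul_apply]
  rw [JJ_apply, JJ_apply]
  by_cases h : AD adj x a ∧ x (i + 1) = false
  · obtain ⟨hA, hx⟩ := h
    rw [if_pos ⟨hA, hx⟩, if_pos ⟨hA, hx⟩, DD_apply, if_pos hA,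
      Finset.sum_eq_single (false, x (i + 2), a (i + 1))]
    · have e1 : kat K i x a (false, x (i + 2), a (i + 1)) = 1 := by
        unfold kat
        rw [hx, H.jdj2 _ _ (by have := hA i; rw [hx] at this; exact this) _ _ (hA (i + 1)), if_pos]
        exact ⟨rfl, rfl⟩
      have e2 : cx i x (false, x (i + 2), a (i + 1)) = x := by
        unfold cx
        simp only
        rw [← hx]
        exact ux_id x (i + 1)
      have e3 : ca i a (false, x (i + 2), a (i + 1)) = a := ua_id a (i + 1)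
      rw [e1, e2, e3, one_mul, JJ_apply, if_pos ⟨hA, hx⟩]
    · rintro ⟨x', y', a'⟩ _ hne
      rw [JJ_apply, cx_1]
      by_cases hy : x' = false
      · subst hy
        have e1 : kat K i x a (false, y', a') = 0 := by
          unfold kat
          rw [hx, H.jdj2 _ _ (by have := hA i; rw [hx] at this; exact this) _ _ (hA (i + 1)), if_neg]
          rintro ⟨rfl, rfl⟩
          exact hne rfl
        rw [e1, zero_mul]
      · rw [if_neg, mul_zero]
        rintro ⟨_, h⟩
        exact hy h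
    · simp
  · rw [if_neg h, if_neg h]


theorem cx_comm {i j : ℕ} (h : i + 2 ≤ j) (x : ℕ → Bool) (u v : Bool × Bool × L) :
    cx i (cx j x v) u = cx j (cx i x u) v := by
  funext k
  simp only [cx, ux]
  split_ifs <;> first | rfl | omega

theorem ca_comm {i j : ℕ} (h : i ≠ j) (a : ℕ → L) (u v : Bool × Bool × L) :
    ca i (ca j a v) u = ca j (ca i a u) v := by
  funext k
  simp only [ca, ua]
  split_ifs <;> first | rfl | omega

theorem DD_comm_far (H : Loc adj K q) {i j : ℕ} (hij : i + 2 ≤ j) :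
    DD adj K i * DD adj K j = DD adj K j * DD adj K i := by
  ext f x a
  simp only [Module.End.mul_apply]
  rw [DD_apply, DD_apply]
  by_cases hA : AD adj x a
  · rw [if_pos hA, if_pos hA]
    have e1 : ∀ u, kat K i x a u * DD adj K j f (cx i x u) (ca i a u) =
        kat K i x a u * ∑ v : Bool × Bool × L, kat K j x a v *
          f (cx j (cx i x u) v) (ca j (ca i a u) v) := by
      intro u
      rw [DD_apply, H.kmul hA _ id]
      congr 1
      refine Finset.sum_congr rfl fun v _ => ?_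
      congr 1
      unfold kat
      rw [ca_ne a u (by omega), ca_ne a u (by omega), ca_ne a u (by omega),
        cx_ne x u (by omega) (by omega), cx_ne x u (by omega) (by omega)]
    have e2 : ∀ v, kat K j x a v * DD adj K i f (cx j x v) (ca j a v) =
        kat K j x a v * ∑ u : Bool × Bool × L, kat K i x a u *
          f (cx j (cx i x u) v) (ca j (ca i a u) v) := by
      intro v
      rw [DD_apply, H.kmul hA _ id]
      congr 1
      refine Finset.sum_congr rfl fun u _ => ?_
      rw [cx_comm hij, ca_comm (by omega)]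
      congr 1
      unfold kat
      rw [ca_ne a v (by omega), ca_ne a v (by omega), ca_ne a v (by omega),
        cx_ne x v (by omega) (by omega), cx_ne x v (by omega) (by omega)]
    simp only [e1, e2, Finset.mul_sum]
    rw [Finset.sum_comm]
    refine Finset.sum_congr rfl fun v _ => Finset.sum_congr rfl fun u _ => ?_
    ring
  · rw [if_neg hA, if_neg hA]

theorem DD_comm_adj (H : Loc adj K q) (i : ℕ) :
    DD adj K i * DD adj K (i + 1) = DD adj K (i + 1) * DD adj K i := by
  ext f x a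
  simp only [Module.End.mul_apply]
  rw [DD_apply, DD_apply]
  by_cases hA : AD adj x a
  · rw [if_pos hA, if_pos hA]
    -- final configuration
    have e1 : ∀ u : Bool × Bool × L,
        kat K i x a u * DD adj K (i + 1) f (cx i x u) (ca i a u) =
        ∑ v : Bool × Bool × L,
          K (a i) (x (i + 1)) (x (i + 2)) (a (i + 2)) (a (i + 1)) u.1 u.2.1 u.2.2 *
          K u.2.2 u.2.1 (x (i + 3)) (a (i + 3)) (a (i + 2)) v.1 v.2.1 v.2.2 *
          f (cx (i + 1) (cx i x (u.1, v.1, u.2.2)) v) (ca (i + 1) (ca i a u) v) := by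
      intro u
      rw [DD_apply, H.kmul hA _ id, Finset.mul_sum]
      refine Finset.sum_congr rfl fun v _ => ?_
      have e3 : cx (i + 1) (cx i x u) v = cx (i + 1) (cx i x (u.1, v.1, u.2.2)) v := by
        funext k
        simp only [cx, ux]
        split_ifs <;> first | rfl | omega
      have e4 : kat K (i + 1) (cx i x u) (ca i a u) v =
          K u.2.2 u.2.1 (x (i + 3)) (a (i + 3)) (a (i + 2)) v.1 v.2.1 v.2.2 := by
        unfold kat
        rw [ca_1, show i + 1 + 1 = i + 2 by ring, cx_2, show i + 1 + 2 = i + 3 by ring,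
          cx_ne x u (by omega) (by omega), ca_ne a u (by omega), ca_2]
      rw [e3, e4]
      unfold kat
      ring
    have e2 : ∀ v : Bool × Bool × L,
        kat K (i + 1) x a v * DD adj K i f (cx (i + 1) x v) (ca (i + 1) a v) =
        ∑ u : Bool × Bool × L,
          K (a (i + 1)) (x (i + 2)) (x (i + 3)) (a (i + 3)) (a (i + 2)) v.1 v.2.1 v.2.2 *
          K (a i) (x (i + 1)) v.1 v.2.2 (a (i + 1)) u.1 u.2.1 u.2.2 *
          f (cx (i + 1) (cx i x u) (u.2.1, v.2.1, v.2.2)) (ca (i + 1) (ca i a u) v) := by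
      intro v
      rw [DD_apply, H.kmul hA _ id, Finset.mul_sum]
      refine Finset.sum_congr rfl fun u _ => ?_
      have e3 : cx i (cx (i + 1) x v) u = cx (i + 1) (cx i x u) (u.2.1, v.2.1, v.2.2) := by
        funext k
        simp only [cx, ux]
        split_ifs <;> first | rfl | omega
      have e4 : kat K i (cx (i + 1) x v) (ca (i + 1) a v) u =
          K (a i) (x (i + 1)) v.1 v.2.2 (a (i + 1)) u.1 u.2.1 u.2.2 := by
        unfold kat
        have h1 : ca (i + 1) a v i = a i := ca_ne a v (by omega)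
        have h2 : ca (i + 1) a v (i + 1) = a (i + 1) := ca_0 (i + 1) a v
        have h3 : ca (i + 1) a v (i + 2) = v.2.2 := ca_1 (i + 1) a v
        have h4 : cx (i + 1) x v (i + 1) = x (i + 1) := cx_ne x v (by omega) (by omega)
        have h5 : cx (i + 1) x v (i + 2) = v.1 := cx_1 (i + 1) x v
        rw [h1, h2, h3, h4, h5]
      have e5 : ca i (ca (i + 1) a v) u = ca (i + 1) (ca i a u) v := ca_comm (by omega) _ _ _
      rw [e3, e4, e5]
      unfold kat
      rw [show i + 1 + 1 = i + 2 by ring, show i + 1 + 2 = i + 3 by ring]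
      ring
    simp only [e1, e2]
    have key : ∀ (x' : Bool) (a' : L) (y'' z'' : Bool) (b'' : L),
        ∑ y' : Bool, K (a i) (x (i + 1)) (x (i + 2)) (a (i + 2)) (a (i + 1)) x' y' a' *
          K a' y' (x (i + 3)) (a (i + 3)) (a (i + 2)) y'' z'' b'' =
        ∑ y' : Bool, K (a (i + 1)) (x (i + 2)) (x (i + 3)) (a (i + 3)) (a (i + 2)) y' z'' b'' *
          K (a i) (x (i + 1)) y' b'' (a (i + 1)) x' y'' a' := by
      intro x' a' y'' z'' b''
      exact H.comm (a i) (x (i + 1)) (a (i + 1)) (hA i) (x (i + 2)) (a (i + 2)) (hA (i + 1))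
        (x (i + 3)) (a (i + 3)) (hA (i + 2)) x' a' y'' b'' z''
    -- both sides as sums over `((x', a', y'', z'', b''), y')`
    let φ1 : (Bool × Bool × L) × (Bool × Bool × L) ≃ (Bool × L × Bool × Bool × L) × Bool :=
      { toFun := fun p => ((p.1.1, p.1.2.2, p.2.1, p.2.2.1, p.2.2.2), p.1.2.1)
        invFun := fun w => ((w.1.1, w.2, w.1.2.1), (w.1.2.2.1, w.1.2.2.2.1, w.1.2.2.2.2))
        left_inv := fun _ => rfl
        right_inv := fun _ => rfl }
    let φ2 : (Bool × Bool × L) × (Bool × Bool × L) ≃ (Bool × L × Bool × Bool × L) × Bool :=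
      { toFun := fun p => ((p.2.1, p.2.2.2, p.2.2.1, p.1.2.1, p.1.2.2), p.1.1)
        invFun := fun w => ((w.2, w.1.2.2.2.1, w.1.2.2.2.2), (w.1.1, w.1.2.2.1, w.1.2.1))
        left_inv := fun _ => rfl
        right_inv := fun _ => rfl }
    rw [← Fintype.sum_prod_type' (f := fun (u v : Bool × Bool × L) =>
        K (a i) (x (i + 1)) (x (i + 2)) (a (i + 2)) (a (i + 1)) u.1 u.2.1 u.2.2 *
          K u.2.2 u.2.1 (x (i + 3)) (a (i + 3)) (a (i + 2)) v.1 v.2.1 v.2.2 *
          f (cx (i + 1) (cx i x (u.1, v.1, u.2.2)) v) (ca (i + 1) (ca i a u) v)),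
      ← Fintype.sum_prod_type' (f := fun (v u : Bool × Bool × L) =>
        K (a (i + 1)) (x (i + 2)) (x (i + 3)) (a (i + 3)) (a (i + 2)) v.1 v.2.1 v.2.2 *
          K (a i) (x (i + 1)) v.1 v.2.2 (a (i + 1)) u.1 u.2.1 u.2.2 *
          f (cx (i + 1) (cx i x u) (u.2.1, v.2.1, v.2.2)) (ca (i + 1) (ca i a u) v))]
    have s1 := Fintype.sum_equiv φ1 (fun p : (Bool × Bool × L) × (Bool × Bool × L) =>
        K (a i) (x (i + 1)) (x (i + 2)) (a (i + 2)) (a (i + 1)) p.1.1 p.1.2.1 p.1.2.2 *
          K p.1.2.2 p.1.2.1 (x (i + 3)) (a (i + 3)) (a (i + 2)) p.2.1 p.2.2.1 p.2.2.2 *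
          f (cx (i + 1) (cx i x (p.1.1, p.2.1, p.1.2.2)) p.2) (ca (i + 1) (ca i a p.1) p.2))
      (fun w => K (a i) (x (i + 1)) (x (i + 2)) (a (i + 2)) (a (i + 1)) w.1.1 w.2 w.1.2.1 *
          K w.1.2.1 w.2 (x (i + 3)) (a (i + 3)) (a (i + 2)) w.1.2.2.1 w.1.2.2.2.1 w.1.2.2.2.2 *
          f (cx (i + 1) (cx i x (w.1.1, w.1.2.2.1, w.1.2.1))
            (w.1.2.2.1, w.1.2.2.2.1, w.1.2.2.2.2))
            (ca (i + 1) (ca i a (w.1.1, w.1.2.2.1, w.1.2.1))
            (w.1.2.2.1, w.1.2.2.2.1, w.1.2.2.2.2))) (fun p => rfl)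
    have s2 := Fintype.sum_equiv φ2 (fun p : (Bool × Bool × L) × (Bool × Bool × L) =>
        K (a (i + 1)) (x (i + 2)) (x (i + 3)) (a (i + 3)) (a (i + 2)) p.1.1 p.1.2.1 p.1.2.2 *
          K (a i) (x (i + 1)) p.1.1 p.1.2.2 (a (i + 1)) p.2.1 p.2.2.1 p.2.2.2 *
          f (cx (i + 1) (cx i x p.2) (p.2.2.1, p.1.2.1, p.1.2.2))
            (ca (i + 1) (ca i a p.2) p.1))
      (fun w => K (a (i + 1)) (x (i + 2)) (x (i + 3)) (a (i + 3)) (a (i + 2)) w.2 w.1.2.2.2.1
            w.1.2.2.2.2 *
          K (a i) (x (i + 1)) w.2 w.1.2.2.2.2 (a (i + 1)) w.1.1 w.1.2.2.1 w.1.2.1 *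
          f (cx (i + 1) (cx i x (w.1.1, w.1.2.2.1, w.1.2.1))
            (w.1.2.2.1, w.1.2.2.2.1, w.1.2.2.2.2))
            (ca (i + 1) (ca i a (w.1.1, w.1.2.2.1, w.1.2.1))
            (w.1.2.2.1, w.1.2.2.2.1, w.1.2.2.2.2))) (fun p => rfl)
    rw [s1, s2]
    refine (Fintype.sum_prod_type _).trans (Eq.trans ?_ (Fintype.sum_prod_type _).symm)
    apply Finset.sum_congr rfl
    intro w _
    simp only
    have k1 := key w.1 w.2.1 w.2.2.1 w.2.2.2.1 w.2.2.2.2
    have k2 := congrArg (fun z : ℝ => z * f (cx (i + 1) (cx i x (w.1, w.2.2.1, w.2.1))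
            (w.2.2.1, w.2.2.2.1, w.2.2.2.2))
            (ca (i + 1) (ca i a (w.1, w.2.2.1, w.2.1))
            (w.2.2.1, w.2.2.2.1, w.2.2.2.2))) k1
    simp only [Finset.sum_mul] at k2
    exact k2
  · rw [if_neg hA, if_neg hA]

/-- The Temperley-Lieb generators. -/
noncomputable def EE (adj : L → Bool → L → Bool) (K : Ker L) (δ : ℝ) (k : ℕ) :
    Module.End ℝ (Fn L) :=
  if k % 2 = 1 then δ • JJ adj (k / 2) else δ⁻¹ • DD adj K (k / 2 - 1)

theorem EE_odd (δ : ℝ) (i : ℕ) : EE adj K δ (2 * i + 1) = δ • JJ adj i := by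
  unfold EE
  rw [if_pos (by omega), show (2 * i + 1) / 2 = i by omega]

theorem EE_even (δ : ℝ) (i : ℕ) : EE adj K δ (2 * (i + 1)) = δ⁻¹ • DD adj K i := by
  unfold EE
  rw [if_neg (by omega), show (2 * (i + 1)) / 2 - 1 = i by omega]

theorem EE_TLRel (H : Loc adj K q) {δ : ℝ} (hδ : 0 < δ) (hq : δ ^ 2 = q) :
    TLRel (M := Module.End ℝ (Fn L)) (δ • 1) (EE adj K δ) where
  dcomm i := by simp
  sq k hk := by
    rcases Nat.even_or_odd' k with ⟨i, rfl | rfl⟩
    · obtain ⟨i, rfl⟩ : ∃ j, i = j + 1 := ⟨i - 1, by omega⟩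
      rw [EE_even, smul_mul_smul_comm, DD_sq H, ← hq, smul_mul_assoc, one_mul, smul_smul,
        smul_smul]
      congr 1
      field_simp
    · rw [EE_odd, smul_mul_smul_comm, JJ_sq, smul_mul_assoc, one_mul, smul_smul]
  up k hk := by
    rcases Nat.even_or_odd' k with ⟨i, rfl | rfl⟩
    · obtain ⟨i, rfl⟩ : ∃ j, i = j + 1 := ⟨i - 1, by omega⟩
      rw [EE_even, EE_odd, smul_mul_smul_comm, smul_mul_smul_comm, DJD_right H]
      congr 1
      field_simp
    · rw [EE_odd, show 2 * i + 1 + 1 = 2 * (i + 1) by ring, EE_even, smul_mul_smul_comm,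
        smul_mul_smul_comm, JDJ_left H]
      congr 1
      field_simp
  down k hk := by
    rcases Nat.even_or_odd' k with ⟨i, rfl | rfl⟩
    · obtain ⟨i, rfl⟩ : ∃ j, i = j + 1 := ⟨i - 1, by omega⟩
      rw [EE_even, EE_odd, smul_mul_smul_comm, smul_mul_smul_comm, JDJ_right H]
      congr 1
      field_simp
    · rw [EE_odd, show 2 * i + 1 + 1 = 2 * (i + 1) by ring, EE_even, smul_mul_smul_comm,
        smul_mul_smul_comm, DJD_left H]
      congr 1
      field_simp
  comm k l hk hkl := by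
    rcases Nat.even_or_odd' k with ⟨i, rfl | rfl⟩ <;>
    rcases Nat.even_or_odd' l with ⟨j, rfl | rfl⟩
    · obtain ⟨i, rfl⟩ : ∃ j, i = j + 1 := ⟨i - 1, by omega⟩
      obtain ⟨j, rfl⟩ : ∃ i, j = i + 1 := ⟨j - 1, by omega⟩
      rw [EE_even, EE_even, smul_mul_smul_comm, smul_mul_smul_comm, mul_comm δ⁻¹ δ⁻¹]
      congr 1
      by_cases h : i + 2 ≤ j
      · exact DD_comm_far H h
      · obtain rfl : j = i + 1 := by omega
        exact DD_comm_adj H i
    · obtain ⟨i, rfl⟩ : ∃ j, i = j + 1 := ⟨i - 1, by omega⟩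
      rw [EE_even, EE_odd, smul_mul_smul_comm, smul_mul_smul_comm,
        JD_comm H (i := j) (j := i) (by omega) (by omega), mul_comm]
    · obtain ⟨j, rfl⟩ : ∃ i, j = i + 1 := ⟨j - 1, by omega⟩
      rw [EE_even, EE_odd, smul_mul_smul_comm, smul_mul_smul_comm,
        ← JD_comm H (i := i) (j := j) (by omega) (by omega), mul_comm]
    · rw [EE_odd, EE_odd, smul_mul_smul_comm, smul_mul_smul_comm, JJ_comm]

end

end Pool.Agent.Gold
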