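import Mathlib

/-!
Numbers `a + b τ` with integers `a`, `b` (`τ` the golden ratio), the local weights of the two
Fibonacci representations of the Temperley-Lieb algebra, and the finite identities between them.
-/

set_option autoImplicit false

namespace Pool.Agent.Gold

/-- `re + im * τ` with `τ` the golden ratio. -/
structure Zt where
  re : ℤ
  im : ℤ
deriving DecidableEq

namespace Zt

def add (a b : Zt) : Zt := ⟨a.re + b.re, a.im + b.im⟩
def mul (a b : Zt) : Zt := ⟨a.re * b.re + a.im * b.im, a.re * b.im + a.im * b.re + a.im * b.im⟩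

end Zt

/-- zero, one, `τ` and `τ⁻¹ = τ - 1` -/
def z0 : Zt := ⟨0, 0⟩
def z1 : Zt := ⟨1, 0⟩
def zt : Zt := ⟨0, 1⟩
def zi : Zt := ⟨-1, 1⟩
def zn : Zt := ⟨1, -1⟩

/-- Fusion rule of the Fibonacci category (`true` is the nontrivial object). -/
def adm (p x a : Bool) : Bool :=
  match p, x, a with
  | true, false, false => false
  | false, true, false => false
  | false, false, true => false
  | _, _, _ => true

/-- The fusion matrix. -/
def Fz (a w : Bool) : Zt :=
  match a, w with
  | false, false => zi
  | false, true => z1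
  | true, false => zi
  | true, true => zn

/-- Amplitude from the path `p x a y r` to the channel `w` (output side). -/
def Gz (p x y r a w : Bool) : Zt :=
  if adm p x a && adm a y r && adm x y w && adm p w r then
    (if p && x && y && r then Fz a w else z1) else z0

/-- Amplitude from the channel `w` to the path `p x a y r` (input side). -/
def Hz (p x y r w a : Bool) : Zt :=
  if adm p x a && adm a y r && adm x y w && adm p w r then
    (if p && x && y && r then Fz w a else z1) else z0

/-- Output and input weights of the single representation (`q = τ + 1`). -/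
def αz (x y w : Bool) : Zt := if x && y && w then zi else z1
def βz (x y w : Bool) : Zt := if x && y && !w then zt else z1

/-- Output and input weights of the double representation (`q = τ + 2`). -/
def γz (x y w : Bool) : Zt := if x && y && !w then zt else z1
def δz (x y w : Bool) : Zt := if x && y then zt else z1

/-- One channel. -/
def Pz (w p x y r a x' y' a' : Bool) : Zt := Zt.mul (Gz p x y r a w) (Hz p x' y' r w a')

/-- Kernel of the single representation. -/
def K1z (p : Bool) (x y : Bool) (r a : Bool) (x' y' a' : Bool) : Zt :=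
  Zt.add
    (Zt.mul (Zt.mul (αz x y false) (βz x' y' false)) (Pz false p x y r a x' y' a'))
    (Zt.mul (Zt.mul (αz x y true) (βz x' y' true)) (Pz true p x y r a x' y' a'))

/-- Kernel of the double representation. -/
def K2z (p : Bool × Bool) (x y : Bool) (r a : Bool × Bool) (x' y' : Bool) (a' : Bool × Bool) : Zt :=
  Zt.add
    (Zt.mul (Zt.mul (γz x y false) (δz x' y' false))
      (Zt.mul (Pz false p.1 x y r.1 a.1 x' y' a'.1) (Pz false p.2 x y r.2 a.2 x' y' a'.2)))
    (Zt.mul (Zt.mul (γz x y true) (δz x' y' true))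
      (Zt.mul (Pz true p.1 x y r.1 a.1 x' y' a'.1) (Pz true p.2 x y r.2 a.2 x' y' a'.2)))

def sumB (f : Bool → Zt) : Zt := Zt.add (f false) (f true)

def sumL (f : Bool × Bool → Zt) : Zt := sumB fun a => sumB fun b => f (a, b)

def adm2 (p : Bool × Bool) (x : Bool) (a : Bool × Bool) : Bool := adm p.1 x a.1 && adm p.2 x a.2

def sum3 (f : Bool → Bool → Bool → Zt) : Zt := sumB fun x => sumB fun y => sumB fun a => f x y a

def sum4 (f : Bool → Bool → Bool × Bool → Zt) : Zt :=
  sumB fun x => sumB fun y => sumL fun a => f x y a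

/-- Weights relating the kernels of the operators `V`. -/
def κz (x y x' y' : Bool) : Zt :=
  if x && y then (if x' && y' then ⟨1, 2⟩ else if x' || y' then ⟨1, 1⟩ else zt)
  else if x || y then (if x' && y' then zt else z1) else zi

/-- Kernel of the identity. -/
def I1z (x y a x' y' a' : Bool) : Zt := if x' = x ∧ y' = y ∧ a' = a then z1 else z0
def I2z (x y : Bool) (a : Bool × Bool) (x' y' : Bool) (a' : Bool × Bool) : Zt :=
  if x' = x ∧ y' = y ∧ a' = a then z1 else z0

/-- Kernel of `V` in the single representation. -/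
def V1z (p x y r a x' y' a' : Bool) : Zt :=
  Zt.add (K1z p x y r a x' y' a') (Zt.mul ⟨-1, 0⟩ (I1z x y a x' y' a'))

set_option maxRecDepth 100000

theorem kadj1z : ∀ p x y r a x' y' a', (adm p x' a' && adm a' y' r) = false →
    K1z p x y r a x' y' a' = z0 := by
  decide +kernel

theorem sq1z : ∀ p x a, adm p x a = true → ∀ y r, adm a y r = true →
    ∀ x'' a'', adm p x'' a'' = true → ∀ y'', adm a'' y'' r = true →
    sum3 (fun x' y' a' => if adm p x' a' && adm a' y' r then
      Zt.mul (K1z p x y r a x' y' a') (K1z p x' y' r a' x'' y'' a'') else z0) =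
    Zt.mul ⟨1, 1⟩ (K1z p x y r a x'' y'' a'') := by
  decide +kernel

theorem jdj11z : ∀ p x a, adm p x a = true → ∀ r, adm a false r = true → ∀ x' a',
    K1z p x false r a x' false a' = if x' = x ∧ a' = a then z1 else z0 := by
  decide +kernel

theorem jdj21z : ∀ p a, adm p false a = true → ∀ y r, adm a y r = true → ∀ y' a',
    K1z p false y r a false y' a' = if y' = y ∧ a' = a then z1 else z0 := by
  decide +kernel

theorem djd11z : ∀ p x a, adm p x a = true → ∀ y r, adm a y r = true →
    ∀ x'' a'', adm p x'' a'' = true → ∀ y'', adm a'' y'' r = true →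
    sum3 (fun x' y' a' => if !y' && adm p x' a' && adm a' y' r then
      Zt.mul (K1z p x y r a x' y' a') (K1z p x' y' r a' x'' y'' a'') else z0) =
    K1z p x y r a x'' y'' a'' := by
  decide +kernel

theorem djd21z : ∀ p x a, adm p x a = true → ∀ y r, adm a y r = true →
    ∀ x'' a'', adm p x'' a'' = true → ∀ y'', adm a'' y'' r = true →
    sum3 (fun x' y' a' => if !x' && adm p x' a' && adm a' y' r then
      Zt.mul (K1z p x y r a x' y' a') (K1z p x' y' r a' x'' y'' a'') else z0) =
    K1z p x y r a x'' y'' a'' := by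
  decide +kernel

theorem comm1z : ∀ p x a, adm p x a = true → ∀ y b, adm a y b = true →
    ∀ z r, adm b z r = true → ∀ x' a', adm p x' a' = true →
    ∀ y'' b'', adm a' y'' b'' = true → ∀ z'', adm b'' z'' r = true →
    sumB (fun y' => if adm a' y' b then
      Zt.mul (K1z p x y b a x' y' a') (K1z a' y' z r b y'' z'' b'') else z0) =
    sumB (fun y' => if adm a y' b'' then
      Zt.mul (K1z a y z r b y' z'' b'') (K1z p x y' b'' a x' y'' a') else z0) := by
  decide +kernel

theorem kadj2z : ∀ p x y r a x' y' a', (adm2 p x' a' && adm2 a' y' r) = false →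
    K2z p x y r a x' y' a' = z0 := by
  decide +kernel

theorem sq2z : ∀ p x a, adm2 p x a = true → ∀ y r, adm2 a y r = true →
    ∀ x'' a'', adm2 p x'' a'' = true → ∀ y'', adm2 a'' y'' r = true →
    sum4 (fun x' y' a' => if adm2 p x' a' && adm2 a' y' r then
      Zt.mul (K2z p x y r a x' y' a') (K2z p x' y' r a' x'' y'' a'') else z0) =
    Zt.mul ⟨2, 1⟩ (K2z p x y r a x'' y'' a'') := by
  decide +kernel

theorem jdj12z : ∀ p x a, adm2 p x a = true → ∀ r, adm2 a false r = true → ∀ x' a',
    K2z p x false r a x' false a' = if x' = x ∧ a' = a then z1 else z0 := by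
  decide +kernel

theorem jdj22z : ∀ p a, adm2 p false a = true → ∀ y r, adm2 a y r = true → ∀ y' a',
    K2z p false y r a false y' a' = if y' = y ∧ a' = a then z1 else z0 := by
  decide +kernel

theorem djd12z : ∀ p x a, adm2 p x a = true → ∀ y r, adm2 a y r = true →
    ∀ x'' a'', adm2 p x'' a'' = true → ∀ y'', adm2 a'' y'' r = true →
    sum4 (fun x' y' a' => if !y' && adm2 p x' a' && adm2 a' y' r then
      Zt.mul (K2z p x y r a x' y' a') (K2z p x' y' r a' x'' y'' a'') else z0) =
    K2z p x y r a x'' y'' a'' := by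
  decide +kernel

theorem djd22z : ∀ p x a, adm2 p x a = true → ∀ y r, adm2 a y r = true →
    ∀ x'' a'', adm2 p x'' a'' = true → ∀ y'', adm2 a'' y'' r = true →
    sum4 (fun x' y' a' => if !x' && adm2 p x' a' && adm2 a' y' r then
      Zt.mul (K2z p x y r a x' y' a') (K2z p x' y' r a' x'' y'' a'') else z0) =
    K2z p x y r a x'' y'' a'' := by
  decide +kernel

theorem comm2z : ∀ p x a, adm2 p x a = true → ∀ y b, adm2 a y b = true →
    ∀ z r, adm2 b z r = true → ∀ x' a', adm2 p x' a' = true →
    ∀ y'' b'', adm2 a' y'' b'' = true → ∀ z'', adm2 b'' z'' r = true →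
    sumB (fun y' => if adm2 a' y' b then
      Zt.mul (K2z p x y b a x' y' a') (K2z a' y' z r b y'' z'' b'') else z0) =
    sumB (fun y' => if adm2 a y' b'' then
      Zt.mul (K2z a y z r b y' z'' b'') (K2z p x y' b'' a x' y'' a') else z0) := by
  decide +kernel

theorem vrelz : ∀ p x a, adm2 p x a = true → ∀ y r, adm2 a y r = true → ∀ x' y' a',
    K2z p x y r a x' y' a' = Zt.add (I2z x y a x' y' a') (Zt.mul (κz x y x' y')
      (Zt.mul (V1z p.1 x y r.1 a.1 x' y' a'.1) (V1z p.2 x y r.2 a.2 x' y' a'.2))) := by
  decide +kernel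

end Pool.Agent.Gold
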