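import Mathlib
import Pool.Agent.Gold.Zt
import Pool.Agent.Gold.Chain

/-!
The two Fibonacci representations: local identities over the reals.
-/

set_option autoImplicit false

namespace Pool.Agent.Gold

/-- The real number `re + im * φ`. -/
noncomputable def toR (z : Zt) : ℝ := z.re + z.im * Real.goldenRatio

theorem toR_add (a b : Zt) : toR (Zt.add a b) = toR a + toR b := by
  simp only [toR, Zt.add]
  push_cast
  ring

theorem toR_mul (a b : Zt) : toR (Zt.mul a b) = toR a * toR b := by
  simp only [toR, Zt.mul]
  push_cast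
  linear_combination (-(a.im * b.im : ℝ)) * Real.goldenRatio_sq

theorem toR_z0 : toR z0 = 0 := by simp [toR, z0]
theorem toR_z1 : toR z1 = 1 := by simp [toR, z1]

theorem toR_ite (P : Prop) [Decidable P] (a b : Zt) :
    toR (if P then a else b) = if P then toR a else toR b := by
  split_ifs <;> rfl

theorem toR_sumB (f : Bool → Zt) : toR (sumB f) = ∑ b : Bool, toR (f b) := by
  rw [sumB, toR_add, Fintype.sum_bool, add_comm]

theorem toR_sumL (f : Bool × Bool → Zt) : toR (sumL f) = ∑ b : Bool × Bool, toR (f b) := by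
  rw [sumL, toR_sumB, Fintype.sum_prod_type]
  exact Finset.sum_congr rfl fun _ _ => toR_sumB _

theorem toR_sum3 (f : Bool → Bool → Bool → Zt) :
    toR (sum3 f) = ∑ u : Bool × Bool × Bool, toR (f u.1 u.2.1 u.2.2) := by
  rw [sum3, toR_sumB, Fintype.sum_prod_type]
  refine Finset.sum_congr rfl fun _ _ => ?_
  rw [toR_sumB, Fintype.sum_prod_type]
  exact Finset.sum_congr rfl fun _ _ => toR_sumB _

theorem toR_sum4 (f : Bool → Bool → Bool × Bool → Zt) :
    toR (sum4 f) = ∑ u : Bool × Bool × (Bool × Bool), toR (f u.1 u.2.1 u.2.2) := by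
  rw [sum4, toR_sumB, Fintype.sum_prod_type]
  refine Finset.sum_congr rfl fun _ _ => ?_
  rw [toR_sumB, Fintype.sum_prod_type]
  exact Finset.sum_congr rfl fun _ _ => toR_sumL _

/-- Kernel of the single representation. -/
noncomputable def K1 : Ker Bool := fun p x y r a x' y' a' => toR (K1z p x y r a x' y' a')

/-- Kernel of the double representation. -/
noncomputable def K2 : Ker (Bool × Bool) := fun p x y r a x' y' a' => toR (K2z p x y r a x' y' a')

section

variable {L : Type} [Fintype L] [DecidableEq L] {adj : L → Bool → L → Bool} {K : Ker L} {q : ℝ}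

/-- The local identities from their restrictions to admissible labels. -/
theorem Loc.of_restricted
    (kadj : ∀ p x y r a x' y' a', (adj p x' a' && adj a' y' r) = false →
      K p x y r a x' y' a' = 0)
    (sq : ∀ p x a, adj p x a = true → ∀ y r, adj a y r = true →
      ∀ x'' a'', adj p x'' a'' = true → ∀ y'', adj a'' y'' r = true →
      ∑ u : Bool × Bool × L, (if adj p u.1 u.2.2 && adj u.2.2 u.2.1 r then
        K p x y r a u.1 u.2.1 u.2.2 * K p u.1 u.2.1 r u.2.2 x'' y'' a'' else 0) =
        q * K p x y r a x'' y'' a'')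
    (jdj1 : ∀ p x a, adj p x a = true → ∀ r, adj a false r = true → ∀ x' a',
      K p x false r a x' false a' = if x' = x ∧ a' = a then 1 else 0)
    (jdj2 : ∀ p a, adj p false a = true → ∀ y r, adj a y r = true → ∀ y' a',
      K p false y r a false y' a' = if y' = y ∧ a' = a then 1 else 0)
    (djd1 : ∀ p x a, adj p x a = true → ∀ y r, adj a y r = true →
      ∀ x'' a'', adj p x'' a'' = true → ∀ y'', adj a'' y'' r = true →
      ∑ u : Bool × Bool × L, (if !u.2.1 && adj p u.1 u.2.2 && adj u.2.2 u.2.1 r then
        K p x y r a u.1 u.2.1 u.2.2 * K p u.1 u.2.1 r u.2.2 x'' y'' a'' else 0) =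
        K p x y r a x'' y'' a'')
    (djd2 : ∀ p x a, adj p x a = true → ∀ y r, adj a y r = true →
      ∀ x'' a'', adj p x'' a'' = true → ∀ y'', adj a'' y'' r = true →
      ∑ u : Bool × Bool × L, (if !u.1 && adj p u.1 u.2.2 && adj u.2.2 u.2.1 r then
        K p x y r a u.1 u.2.1 u.2.2 * K p u.1 u.2.1 r u.2.2 x'' y'' a'' else 0) =
        K p x y r a x'' y'' a'')
    (comm : ∀ p x a, adj p x a = true → ∀ y b, adj a y b = true → ∀ z r, adj b z r = true →
      ∀ x' a', adj p x' a' = true → ∀ y'' b'', adj a' y'' b'' = true →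
      ∀ z'', adj b'' z'' r = true →
      ∑ y' : Bool, (if adj a' y' b then
        K p x y b a x' y' a' * K a' y' z r b y'' z'' b'' else 0) =
      ∑ y' : Bool, (if adj a y' b'' then
        K a y z r b y' z'' b'' * K p x y' b'' a x' y'' a' else 0)) :
    Loc adj K q := by
  -- outputs that are not admissible
  have out : ∀ p x y r a x' y' a', ¬ (adj p x' a' = true ∧ adj a' y' r = true) →
      K p x y r a x' y' a' = 0 := by
    intro p x y r a x' y' a' h
    apply kadj
    rw [Bool.and_eq_false_iff]
    by_cases h1 : adj p x' a' = true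
    · right
      rw [Bool.eq_false_iff]
      exact fun h2 => h ⟨h1, h2⟩
    · left
      rw [Bool.eq_false_iff]
      exact h1
  have guard : ∀ p x y r a (u : Bool × Bool × L) (F : ℝ),
      (if adj p u.1 u.2.2 && adj u.2.2 u.2.1 r then K p x y r a u.1 u.2.1 u.2.2 * F else 0) =
      K p x y r a u.1 u.2.1 u.2.2 * F := by
    intro p x y r a u F
    split_ifs with h
    · rfl
    · rw [kadj p x y r a u.1 u.2.1 u.2.2 (by simpa using h), zero_mul]
  refine
    { kadj := fun p x y r a x' y' a' h => by
        by_contra hcon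
        exact h (out p x y r a x' y' a' hcon)
      sq := fun p x a h y r h' x'' y'' a'' => ?_
      jdj1 := fun p x a h r h' x' a' => by rw [jdj1 p x a h r h' x' a']; split_ifs <;> rfl
      jdj2 := fun p a h y r h' y' a' => by rw [jdj2 p a h y r h' y' a']; split_ifs <;> rfl
      djd1 := fun p x a h y r h' x'' y'' a'' => ?_
      djd2 := fun p x a h y r h' x'' y'' a'' => ?_
      comm := fun p x a h1 y b h2 z r h3 x' a' y'' b'' z'' => ?_ }
  · by_cases hc : adj p x'' a'' = true ∧ adj a'' y'' r = true
    · rw [← sq p x a h y r h' x'' a'' hc.1 y'' hc.2]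
      exact Finset.sum_congr rfl fun u _ => (guard p x y r a u _).symm
    · rw [out p x y r a x'' y'' a'' hc, mul_zero]
      exact Finset.sum_eq_zero fun u _ => by rw [out p _ _ r _ x'' y'' a'' hc, mul_zero]
  · by_cases hc : adj p x'' a'' = true ∧ adj a'' y'' r = true
    · rw [← djd1 p x a h y r h' x'' a'' hc.1 y'' hc.2]
      refine Finset.sum_congr rfl fun u _ => ?_
      obtain ⟨u1, u2, u3⟩ := u
      have hg := guard p x y r a (u1, u2, u3) (K p u1 u2 r u3 x'' y'' a'')
      simp only at hg ⊢
      cases u2
      · rw [if_pos rfl]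
        simp only [Bool.not_false, Bool.true_and]
        exact hg.symm
      · rw [if_neg (by simp), if_neg (by simp)]
    · rw [out p x y r a x'' y'' a'' hc]
      refine Finset.sum_eq_zero fun u _ => ?_
      rw [out p _ _ r _ x'' y'' a'' hc, mul_zero, ite_self]
  · by_cases hc : adj p x'' a'' = true ∧ adj a'' y'' r = true
    · rw [← djd2 p x a h y r h' x'' a'' hc.1 y'' hc.2]
      refine Finset.sum_congr rfl fun u _ => ?_
      obtain ⟨u1, u2, u3⟩ := u
      have hg := guard p x y r a (u1, u2, u3) (K p u1 u2 r u3 x'' y'' a'')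
      simp only at hg ⊢
      cases u1
      · rw [if_pos rfl]
        simp only [Bool.not_false, Bool.true_and]
        exact hg.symm
      · rw [if_neg (by simp), if_neg (by simp)]
    · rw [out p x y r a x'' y'' a'' hc]
      refine Finset.sum_eq_zero fun u _ => ?_
      rw [out p _ _ r _ x'' y'' a'' hc, mul_zero, ite_self]
  · by_cases hc : adj p x' a' = true ∧ adj a' y'' b'' = true ∧ adj b'' z'' r = true
    · have h4 := comm p x a h1 y b h2 z r h3 x' a' hc.1 y'' b'' hc.2.1 z'' hc.2.2
      have e1 : ∀ y' : Bool, (if adj a' y' b then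
          K p x y b a x' y' a' * K a' y' z r b y'' z'' b'' else 0) =
          K p x y b a x' y' a' * K a' y' z r b y'' z'' b'' := by
        intro y'
        split_ifs with h5
        · rfl
        · rw [out p x y b a x' y' a' (fun h6 => h5 h6.2), zero_mul]
      have e2 : ∀ y' : Bool, (if adj a y' b'' then
          K a y z r b y' z'' b'' * K p x y' b'' a x' y'' a' else 0) =
          K a y z r b y' z'' b'' * K p x y' b'' a x' y'' a' := by
        intro y'
        split_ifs with h5
        · rfl
        · rw [out a y z r b y' z'' b'' (fun h6 => h5 h6.1), zero_mul]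
      simp only [e1, e2] at h4
      exact h4
    · have e1 : ∀ y' : Bool, K p x y b a x' y' a' * K a' y' z r b y'' z'' b'' = 0 := by
        intro y'
        by_cases h5 : adj p x' a' = true
        · rw [out a' y' z r b y'' z'' b'' (fun h6 => hc ⟨h5, h6.1, h6.2⟩), mul_zero]
        · rw [out p x y b a x' y' a' (fun h6 => h5 h6.1), zero_mul]
      have e2 : ∀ y' : Bool, K a y z r b y' z'' b'' * K p x y' b'' a x' y'' a' = 0 := by
        intro y'
        by_cases h5 : adj b'' z'' r = true
        · rw [out p x y' b'' a x' y'' a' (fun h6 => hc ⟨h6.1, h6.2, h5⟩), mul_zero]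
        · rw [out a y z r b y' z'' b'' (fun h6 => h5 h6.2), zero_mul]
      simp only [e1, e2]

end

theorem toR_q1 : toR ⟨1, 1⟩ = Real.goldenRatio + 1 := by simp [toR]; ring
theorem toR_q2 : toR ⟨2, 1⟩ = Real.goldenRatio + 2 := by simp [toR]; ring

theorem loc1 : Loc adm K1 (Real.goldenRatio + 1) := by
  apply Loc.of_restricted
  · intro p x y r a x' y' a' h
    rw [K1, kadj1z p x y r a x' y' a' h, toR_z0]
  · intro p x a h y r h' x'' a'' h1 y'' h2
    have := congrArg toR (sq1z p x a h y r h' x'' a'' h1 y'' h2)
    simp only [toR_sum3, toR_ite, toR_mul, toR_z0, toR_q1] at this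
    exact this
  · intro p x a h r h' x' a'
    have := congrArg toR (jdj11z p x a h r h' x' a')
    simp only [toR_ite, toR_z0, toR_z1] at this
    exact this
  · intro p a h y r h' y' a'
    have := congrArg toR (jdj21z p a h y r h' y' a')
    simp only [toR_ite, toR_z0, toR_z1] at this
    exact this
  · intro p x a h y r h' x'' a'' h1 y'' h2
    have := congrArg toR (djd11z p x a h y r h' x'' a'' h1 y'' h2)
    simp only [toR_sum3, toR_ite, toR_mul, toR_z0] at this
    exact this
  · intro p x a h y r h' x'' a'' h1 y'' h2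
    have := congrArg toR (djd21z p x a h y r h' x'' a'' h1 y'' h2)
    simp only [toR_sum3, toR_ite, toR_mul, toR_z0] at this
    exact this
  · intro p x a h y b h' z r h'' x' a' h1 y'' b'' h2 z'' h3
    have := congrArg toR (comm1z p x a h y b h' z r h'' x' a' h1 y'' b'' h2 z'' h3)
    simp only [toR_sumB, toR_ite, toR_mul, toR_z0] at this
    exact this

theorem loc2 : Loc adm2 K2 (Real.goldenRatio + 2) := by
  apply Loc.of_restricted
  · intro p x y r a x' y' a' h
    rw [K2, kadj2z p x y r a x' y' a' h, toR_z0]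
  · intro p x a h y r h' x'' a'' h1 y'' h2
    have := congrArg toR (sq2z p x a h y r h' x'' a'' h1 y'' h2)
    simp only [toR_sum4, toR_ite, toR_mul, toR_z0, toR_q2] at this
    exact this
  · intro p x a h r h' x' a'
    have := congrArg toR (jdj12z p x a h r h' x' a')
    simp only [toR_ite, toR_z0, toR_z1] at this
    exact this
  · intro p a h y r h' y' a'
    have := congrArg toR (jdj22z p a h y r h' y' a')
    simp only [toR_ite, toR_z0, toR_z1] at this
    exact this
  · intro p x a h y r h' x'' a'' h1 y'' h2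
    have := congrArg toR (djd12z p x a h y r h' x'' a'' h1 y'' h2)
    simp only [toR_sum4, toR_ite, toR_mul, toR_z0] at this
    exact this
  · intro p x a h y r h' x'' a'' h1 y'' h2
    have := congrArg toR (djd22z p x a h y r h' x'' a'' h1 y'' h2)
    simp only [toR_sum4, toR_ite, toR_mul, toR_z0] at this
    exact this
  · intro p x a h y b h' z r h'' x' a' h1 y'' b'' h2 z'' h3
    have := congrArg toR (comm2z p x a h y b h' z r h'' x' a' h1 y'' b'' h2 z'' h3)
    simp only [toR_sumB, toR_ite, toR_mul, toR_z0] at this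
    exact this

/-- The kernel of `V` in the single representation. -/
noncomputable def V1 : Ker Bool := fun p x y r a x' y' a' =>
  K1 p x y r a x' y' a' - if x' = x ∧ y' = y ∧ a' = a then 1 else 0

/-- The weights. -/
noncomputable def κr (x y x' y' : Bool) : ℝ := toR (κz x y x' y')

theorem V1_eq (p x y r a x' y' a' : Bool) :
    toR (V1z p x y r a x' y' a') = V1 p x y r a x' y' a' := by
  rw [V1z, toR_add, toR_mul, I1z, toR_ite, toR_z0, toR_z1, V1, K1]
  have : toR ⟨-1, 0⟩ = -1 := by simp [toR]
  rw [this]
  ring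

theorem vrel (p : Bool × Bool) (x : Bool) (a : Bool × Bool) (h : adm2 p x a = true) (y : Bool)
    (r : Bool × Bool) (h' : adm2 a y r = true) (x' y' : Bool) (a' : Bool × Bool) :
    K2 p x y r a x' y' a' = (if x' = x ∧ y' = y ∧ a' = a then 1 else 0) +
      κr x y x' y' * (V1 p.1 x y r.1 a.1 x' y' a'.1 * V1 p.2 x y r.2 a.2 x' y' a'.2) := by
  rw [K2, vrelz p x a h y r h' x' y' a', toR_add, toR_mul, toR_mul, V1_eq, V1_eq, I2z, toR_ite,
    toR_z0, toR_z1]
  rfl

theorem κr_pos (x y x' y' : Bool) : (1 / 2 : ℝ) ≤ κr x y x' y' := by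
  have h1 := Real.goldenRatio_sq
  have h2 := Real.one_lt_goldenRatio
  have h3 := Real.goldenRatio_lt_two
  have h4 : (3 / 2 : ℝ) ≤ Real.goldenRatio := by nlinarith
  unfold κr
  cases x <;> cases y <;> cases x' <;> cases y' <;> simp [κz, toR, z1, zt, zi] <;> linarith

end Pool.Agent.Gold
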