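import Mathlib
import Pool.Agent.Helper70.BLB.Transfer
import Pool.Agent.Helper70.BLB.Model
import Pool.Agent.Helper70.BLB.GridPos

/-!
The evaluation of a planar network is one polynomial in the loop parameter in any family of
representations of the Temperley-Lieb monoid.  Adaptation of `Helper70/BLB/Transfer.lean` and
`Helper70/BLB/GridPos.lean`.
-/

set_option autoImplicit false

namespace Pool.Agent.Gold

open Pool.Agent.Helper70.BLB Polynomial

/-- A representation of the Temperley-Lieb monoid in a real algebra. -/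
structure TLRep where
  A : Type
  [ring : Ring A]
  [alg : Algebra ℝ A]
  δ : ℝ
  hδ : δ ≠ 0
  e : ℕ → A
  rel : TLRel (M := A) (δ • (1 : A)) e

attribute [instance] TLRep.ring TLRep.alg

section Fam

variable {ι : Type} (F : ι → TLRep)

/-- The product of all algebras of the family. -/
abbrev FamA : Type := ∀ i : ι, (F i).A

/-- The loop parameter in the product. -/
def famD : FamA F := fun i => (F i).δ • 1

/-- The inverse of the loop parameter in the product. -/
noncomputable def famDinv : FamA F := fun i => (F i).δ⁻¹ • 1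

/-- The generators in the product. -/
def famE (k : ℕ) : FamA F := fun i => (F i).e k

theorem fam_TLRel : TLRel (famD F) (famE F) where
  dcomm k := funext fun i => (F i).rel.dcomm k
  sq k hk := funext fun i => (F i).rel.sq k hk
  up k hk := funext fun i => (F i).rel.up k hk
  down k hk := funext fun i => (F i).rel.down k hk
  comm k l hk hl := funext fun i => (F i).rel.comm k l hk hl

/-- The sandwich of `x` is given by one polynomial in all representations. -/
def GoodF (m : ℕ) (x : FamA F) : Prop :=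
  ∃ (Q : ℝ[X]) (K : ℕ), ∀ i,
    (F i).δ ^ K • (TLX (F i).e (2 * m) * x i * TLX (F i).e (2 * m)) =
      Q.eval (F i).δ • TLX (F i).e (2 * m)

variable {F}

theorem GoodF.of_mem {m : ℕ} {w : FamA F} (hw : w ∈ TLA (famD F) (famE F) (2 * m)) :
    GoodF F m w := by
  obtain ⟨j, hj⟩ := (fam_TLRel F).sandwich_X (2 * m) w hw
  refine ⟨X ^ j, 0, fun i => ?_⟩
  have h1 := congrArg (fun z : FamA F => z i) hj
  have h2 : TLX (famE F) (2 * m) i = TLX (F i).e (2 * m) :=
    map_TLX (Pi.evalMonoidHom (fun i : ι => (F i).A) i) (famE F) (2 * m)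
  have h3 : (famD F ^ j) i = ((F i).δ • (1 : (F i).A)) ^ j := rfl
  have h4 : TLX (famE F) (2 * m) i * w i * TLX (famE F) (2 * m) i =
    (famD F ^ j) i * TLX (famE F) (2 * m) i := h1
  rw [h2, h3] at h4
  rw [pow_zero, one_smul, h4, eval_pow, eval_X, _root_.smul_pow, one_pow, smul_mul_assoc, one_mul]

theorem GoodF.d_mul {m : ℕ} {x : FamA F} (hx : GoodF F m x) : GoodF F m (famD F * x) := by
  obtain ⟨Q, K, h1⟩ := hx
  refine ⟨X * Q, K, fun i => ?_⟩
  have : (famD F * x) i = (F i).δ • x i := by
    change ((F i).δ • (1 : (F i).A)) * x i = _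
    rw [smul_mul_assoc, one_mul]
  rw [this, mul_smul_comm, smul_mul_assoc, smul_comm, h1, eval_mul, eval_X, mul_smul]

theorem GoodF.dinv_mul {m : ℕ} {x : FamA F} (hx : GoodF F m x) :
    GoodF F m (famDinv F * x) := by
  obtain ⟨Q, K, h1⟩ := hx
  refine ⟨Q, K + 1, fun i => ?_⟩
  have : (famDinv F * x) i = (F i).δ⁻¹ • x i := by
    change ((F i).δ⁻¹ • (1 : (F i).A)) * x i = _
    rw [smul_mul_assoc, one_mul]
  rw [this, mul_smul_comm, smul_mul_assoc, smul_smul, pow_succ, mul_assoc,
    mul_inv_cancel₀ (F i).hδ, mul_one, h1]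

theorem GoodF.sub {m : ℕ} {x y : FamA F} (hx : GoodF F m x) (hy : GoodF F m y) :
    GoodF F m (x - y) := by
  obtain ⟨Q, K, h1⟩ := hx
  obtain ⟨Q', K', h1'⟩ := hy
  refine ⟨X ^ K' * Q - X ^ K * Q', K + K', fun i => ?_⟩
  have h0 : (x - y) i = x i - y i := rfl
  have e1 := congrArg (fun z => (F i).δ ^ K' • z) (h1 i)
  have e2 := congrArg (fun z => (F i).δ ^ K • z) (h1' i)
  simp only [smul_smul] at e1 e2
  have e3 : (X ^ K' * Q - X ^ K * Q').eval (F i).δ =
      (F i).δ ^ K' * Q.eval (F i).δ - (F i).δ ^ K * Q'.eval (F i).δ := by simp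
  rw [h0, mul_sub, sub_mul, smul_sub, e3]
  have e4 := sub_smul ((F i).δ ^ K' * Q.eval (F i).δ) ((F i).δ ^ K * Q'.eval (F i).δ)
    (TLX (F i).e (2 * m))
  rw [e4, ← e1, ← e2, pow_add, mul_comm ((F i).δ ^ K) ((F i).δ ^ K')]

theorem famD_comm (x : FamA F) : x * famD F = famD F * x := by
  refine funext fun i => ?_
  change x i * ((F i).δ • (1 : (F i).A)) = ((F i).δ • (1 : (F i).A)) * x i
  rw [smul_mul_assoc, mul_smul_comm, one_mul, mul_one]

theorem famDinv_comm (x : FamA F) : x * famDinv F = famDinv F * x := by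
  refine funext fun i => ?_
  change x i * ((F i).δ⁻¹ • (1 : (F i).A)) = ((F i).δ⁻¹ • (1 : (F i).A)) * x i
  rw [smul_mul_assoc, mul_smul_comm, one_mul, mul_one]

theorem GoodF.ops (m : ℕ) : ∀ (ops : List Op), (∀ o ∈ ops, o.ok m) →
    ∀ w ∈ TLA (famD F) (famE F) (2 * m),
      GoodF F m (w * Wval (famD F) (famDinv F) (famE F) ops)
  | [], _, w, hw => by
    have : w * Wval (famD F) (famDinv F) (famE F) [] = w := by simp [Wval]
    rw [this]
    exact GoodF.of_mem hw
  | (o :: ops), hok, w, hw => by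
    have IH := GoodF.ops m ops (fun o ho => hok o (List.mem_cons_of_mem _ ho))
    have ho := hok o List.mem_cons_self
    have hW : Wval (famD F) (famDinv F) (famE F) (o :: ops) =
        o.val (famD F) (famDinv F) (famE F) * Wval (famD F) (famDinv F) (famE F) ops := by
      simp [Wval]
    rw [hW]
    cases o with
    | J i =>
      have hi : i + 1 ≤ m := ho
      have h1 := IH (w * famE F (2 * i + 1)) (mul_mem hw (e_mem_TLA (by omega) (by omega)))
      have h2 := h1.dinv_mul
      have h3 : w * (Op.val (famD F) (famDinv F) (famE F) (Op.J i) *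
          Wval (famD F) (famDinv F) (famE F) ops) =
          famDinv F * (w * famE F (2 * i + 1) * Wval (famD F) (famDinv F) (famE F) ops) := by
        simp only [Op.val]
        rw [← mul_assoc, ← mul_assoc w, famDinv_comm, mul_assoc, mul_assoc, mul_assoc]
      rw [h3]; exact h2
    | H i =>
      have hi : i + 1 ≤ m := ho
      have h1 := IH (w * famE F (2 * i + 1)) (mul_mem hw (e_mem_TLA (by omega) (by omega)))
      have h2 := h1.dinv_mul
      have h4 := (IH w hw).sub h2
      have h3 : w * (Op.val (famD F) (famDinv F) (famE F) (Op.H i) *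
          Wval (famD F) (famDinv F) (famE F) ops) =
          w * Wval (famD F) (famDinv F) (famE F) ops -
          famDinv F * (w * famE F (2 * i + 1) * Wval (famD F) (famDinv F) (famE F) ops) := by
        simp only [Op.val]
        rw [sub_mul, one_mul, mul_sub, ← mul_assoc, ← mul_assoc w, famDinv_comm, mul_assoc,
          mul_assoc, mul_assoc]
      rw [h3]; exact h4
    | D i =>
      obtain ⟨hi1, hi2⟩ : 1 ≤ i ∧ i ≤ m := ho
      have h1 := IH (w * famE F (2 * i)) (mul_mem hw (e_mem_TLA (by omega) (by omega)))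
      have h2 := h1.d_mul
      have h3 : w * (Op.val (famD F) (famDinv F) (famE F) (Op.D i) *
          Wval (famD F) (famDinv F) (famE F) ops) =
          famD F * (w * famE F (2 * i) * Wval (famD F) (famDinv F) (famE F) ops) := by
        simp only [Op.val]
        rw [← mul_assoc, ← mul_assoc w, famD_comm, mul_assoc, mul_assoc, mul_assoc]
      rw [h3]; exact h2
    | V i =>
      obtain ⟨hi1, hi2⟩ : 1 ≤ i ∧ i ≤ m := ho
      have h1 := IH (w * famE F (2 * i)) (mul_mem hw (e_mem_TLA (by omega) (by omega)))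
      have h2 := h1.d_mul
      have h4 := h2.sub (IH w hw)
      have h3 : w * (Op.val (famD F) (famDinv F) (famE F) (Op.V i) *
          Wval (famD F) (famDinv F) (famE F) ops) =
          famD F * (w * famE F (2 * i) * Wval (famD F) (famDinv F) (famE F) ops) -
          w * Wval (famD F) (famDinv F) (famE F) ops := by
        simp only [Op.val]
        rw [sub_mul, one_mul, mul_sub, ← mul_assoc, ← mul_assoc w, famD_comm, mul_assoc,
          mul_assoc, mul_assoc]
      rw [h3]; exact h4

end Fam

/-- One polynomial for all representations of a family. -/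
theorem transfer_gen {ι : Type} (F : ι → TLRep) (m : ℕ) (ops : List Op)
    (hok : ∀ o ∈ ops, o.ok m) :
    ∃ (Q : ℝ[X]) (K : ℕ), ∀ i,
      (F i).δ ^ K • (TLX (F i).e (2 * m) *
        Wval ((F i).δ • (1 : (F i).A)) ((F i).δ⁻¹ • (1 : (F i).A)) (F i).e ops *
        TLX (F i).e (2 * m)) =
      Q.eval (F i).δ • TLX (F i).e (2 * m) := by
  obtain ⟨Q, K, h1⟩ := GoodF.ops (F := F) m ops hok 1 (one_mem _)
  rw [one_mul] at h1
  refine ⟨Q, K, fun i => ?_⟩
  have h := h1 i
  have h5 : Wval (famD F) (famDinv F) (famE F) ops i =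
      Wval ((F i).δ • (1 : (F i).A)) ((F i).δ⁻¹ • (1 : (F i).A)) (F i).e ops :=
    map_Wval (Pi.evalRingHom (fun i : ι => (F i).A) i) (famD F) (famDinv F) (famE F) ops
  rw [h5] at h
  exact h

/-- The colouring representation with `n + 1` colours. -/
noncomputable def colRep (n : ℕ) : TLRep where
  A := CAlg n
  δ := cδ n
  hδ := (cδ_pos n).ne'
  e := cE (Fin (n + 1)) (cδ n)
  rel := cE_TLRel (C := Fin (n + 1)) (cδ_pos n) (by rw [cδ_sq]; simp)

/-! ### The operations of a labelled grid are admissible -/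

section Ok

variable {V : Type} {G : SimpleGraph V}

theorem vop_ok {m i : ℕ} (hi : 1 ≤ i) (him : i ≤ m) (a b : Option V) :
    ∀ x ∈ vop G i a b, x.ok m := by
  classical
  intro x hx
  unfold vop at hx
  split_ifs at hx with h1 h2
  · simp at hx
  · rw [List.mem_singleton] at hx; subst hx; exact ⟨hi, him⟩
  · rw [List.mem_singleton] at hx; subst hx; exact ⟨hi, him⟩

theorem hop_ok {m i : ℕ} (him : i + 1 ≤ m) (a b : Option V) :
    ∀ x ∈ hop G i a b, x.ok m := by
  classical
  intro x hx
  unfold hop at hx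
  split_ifs at hx with h1 h2
  · rw [List.mem_singleton] at hx; subst hx; exact him
  · rw [List.mem_singleton] at hx; subst hx; exact him
  · simp at hx

theorem stepOps_ok {m : ℕ} (L : ℕ → ℕ → Option V) (j : ℕ) :
    ∀ k, k ≤ m → ∀ x ∈ stepOps G L j k, x.ok m
  | 0, _, x, hx => by
    have : stepOps G L j 0 = [] := rfl
    rw [this] at hx; simp at hx
  | (k + 1), hk, x, hx => by
    have e : stepOps G L j (k + 1) = stepOps G L j k ++
      vop G (k + 1) (L (k + 1) j) (L (k + 1) (j + 1)) := rfl
    rw [e, List.mem_append] at hx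
    rcases hx with hx | hx
    · exact stepOps_ok L j k (by omega) x hx
    · exact vop_ok (by omega) hk _ _ x hx

theorem horOps_ok {m : ℕ} (L : ℕ → ℕ → Option V) (j : ℕ) :
    ∀ k, k ≤ m → ∀ x ∈ horOps G L j k, x.ok m
  | 0, _, x, hx => by
    have : horOps G L j 0 = [] := rfl
    rw [this] at hx; simp at hx
  | (k + 1), hk, x, hx => by
    have e : horOps G L j (k + 1) = horOps G L j k ++ hop G k (L k j) (L (k + 1) j) := rfl
    rw [e, List.mem_append] at hx
    rcases hx with hx | hx
    · exact horOps_ok L j k (by omega) x hx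
    · exact hop_ok hk _ _ x hx

theorem botOps_ok {m : ℕ} : ∀ k, k ≤ m → ∀ x ∈ botOps k, x.ok m
  | 0, _, x, hx => by
    have : botOps 0 = [] := rfl
    rw [this] at hx; simp at hx
  | (k + 1), hk, x, hx => by
    have e : botOps (k + 1) = botOps k ++ [Op.J k] := rfl
    rw [e, List.mem_append, List.mem_singleton] at hx
    rcases hx with hx | hx
    · exact botOps_ok k (by omega) x hx
    · subst hx; exact hk

theorem topOps_ok {m : ℕ} (L : ℕ → ℕ → Option V) (r : V) (T : ℕ) :
    ∀ k, k ≤ m → ∀ x ∈ topOps G L r T k, x.ok m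
  | 0, _, x, hx => by
    have : topOps G L r T 0 = [] := rfl
    rw [this] at hx; simp at hx
  | (k + 1), hk, x, hx => by
    classical
    have e : topOps G L r T (k + 1) = topOps G L r T k ++
      ((if ladj G (L (k + 1) T) (some r) then [Op.H k] else []) ++ [Op.D (k + 1), Op.J k]) := by
      simp only [topOps]
    rw [e, List.mem_append, List.mem_append] at hx
    rcases hx with hx | hx | hx
    · exact topOps_ok L r T k (by omega) x hx
    · split_ifs at hx with h1
      · rw [List.mem_singleton] at hx; subst hx; exact hk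
      · simp at hx
    · rcases List.mem_cons.1 hx with rfl | hx
      · exact ⟨by omega, hk⟩
      · rw [List.mem_singleton] at hx; subst hx; exact hk

theorem bodyOps_ok {k : ℕ} (L : ℕ → ℕ → Option V) :
    ∀ t, ∀ x ∈ bodyOps G L k t, x.ok (k + 1)
  | 0, x, hx => by
    have : bodyOps G L k 0 = [] := rfl
    rw [this] at hx; simp at hx
  | (t + 1), x, hx => by
    have e : bodyOps G L k (t + 1) = bodyOps G L k t ++
      (stepOps G L t k ++ horOps G L (t + 1) (k + 1)) := rfl
    rw [e, List.mem_append, List.mem_append] at hx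
    rcases hx with hx | hx | hx
    · exact bodyOps_ok L t x hx
    · exact stepOps_ok L t k (by omega) x hx
    · exact horOps_ok L (t + 1) (k + 1) le_rfl x hx

theorem allOps_ok {k T : ℕ} (L : ℕ → ℕ → Option V) (r : V) :
    ∀ x ∈ allOps G L r k T, x.ok (k + 1) := by
  intro x hx
  unfold allOps at hx
  rw [List.mem_append, List.mem_append] at hx
  rcases hx with hx | hx | hx
  · exact botOps_ok (k + 1) le_rfl x hx
  · exact bodyOps_ok L T x hx
  · exact topOps_ok L r T k (by omega) x hx

end Ok

/-- The chromatic polynomial of a graph with a grid model, evaluated at the square of `x`, and the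
polynomial given by any family of representations. -/
theorem grid_key {V : Type} {G : SimpleGraph V} {r : V} {k T : ℕ}
    {L : ℕ → ℕ → Option V} (M : GridModel G r k T L) (hk : 1 ≤ k) (hT : 1 ≤ T) (p : ℝ[X])
    (hp : ∀ n : ℕ, p.eval (n : ℝ) = (Nat.card (G.Coloring (Fin n)) : ℝ))
    {κ : Type} (F : κ → TLRep) :
    ∃ (ops : List Op) (Q : ℝ[X]) (K a b : ℕ), (∀ o ∈ ops, o.ok (k + 1)) ∧
      (∀ i, (F i).δ ^ K • (TLX (F i).e (2 * (k + 1)) *
        Wval ((F i).δ • (1 : (F i).A)) ((F i).δ⁻¹ • (1 : (F i).A)) (F i).e ops *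
        TLX (F i).e (2 * (k + 1))) =
      Q.eval (F i).δ • TLX (F i).e (2 * (k + 1))) ∧
      ∀ x : ℝ, x ^ a * p.eval (x ^ 2) = Q.eval x * x ^ b := by
  classical
  obtain ⟨Q, K, hall⟩ := transfer_gen (Sum.elim colRep F) (k + 1) (allOps G L r k T)
    (allOps_ok L r)
  have hcol : ∀ n : ℕ, cδ n ^ K • (TLX (cE (Fin (n + 1)) (cδ n)) (2 * (k + 1)) *
        Wval (cδ n • 1) ((cδ n)⁻¹ • 1) (cE (Fin (n + 1)) (cδ n)) (allOps G L r k T) *
        TLX (cE (Fin (n + 1)) (cδ n)) (2 * (k + 1))) =
      Q.eval (cδ n) • TLX (cE (Fin (n + 1)) (cδ n)) (2 * (k + 1)) := fun n => hall (Sum.inl n)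
  refine ⟨allOps G L r k T, Q, K, K + 2 * Fintype.card (NonePt k T L), k + 3, allOps_ok L r,
    fun i => hall (Sum.inr i), ?_⟩
  set a : ℕ := Fintype.card (NonePt k T L) with ha
  have key : (X ^ (K + 2 * a) * p.comp (X ^ 2) : ℝ[X]) = Q * X ^ (k + 3) := by
    apply Polynomial.eq_of_infinite_eval_eq
    apply Set.Infinite.mono _ (Set.infinite_range_of_injective cδ_inj)
    rintro _ ⟨n, rfl⟩
    show eval (cδ n) (X ^ (K + 2 * a) * p.comp (X ^ 2)) = eval (cδ n) (Q * X ^ (k + 3))
    have h1 : ∀ ρ : Fin (n + 1), cδ n ^ K * (∑ X : Fin T → Fin k → Fin (n + 1),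
        if gridOK G L X ρ then (1 : ℝ) else 0) = Q.eval (cδ n) * cδ n ^ (k + 1) := by
      intro ρ
      have h2 := color_eval (C := Fin (n + 1)) (cδ_pos n) (by rw [cδ_sq]; simp) (hcol n)
        (fun _ => ρ)
      rw [count_all M.frame] at h2
      exact h2
    have h3 := M.sum_count (C := Fin (n + 1))
    have h4 : cδ n ^ K * ((Nat.card (G.Coloring (Fin (n + 1))) : ℝ) *
        (Fintype.card (Fin (n + 1)) : ℝ) ^ a) = ((n : ℝ) + 1) * (Q.eval (cδ n) * cδ n ^ (k + 1)) := by
      rw [← h3, Finset.mul_sum, Finset.sum_congr rfl (fun ρ _ => h1 ρ), Finset.sum_const,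
        Finset.card_univ, Fintype.card_fin, nsmul_eq_mul]
      push_cast
      ring
    rw [eval_mul, eval_mul, eval_comp, eval_pow, eval_pow, eval_pow, eval_X, cδ_sq]
    have h5 := hp (n + 1)
    push_cast at h5
    rw [h5, pow_add, pow_mul, cδ_sq, show k + 3 = (k + 1) + 2 by ring, pow_add (cδ n) (k + 1) 2,
      cδ_sq]
    rw [Fintype.card_fin] at h4
    push_cast at h4
    linear_combination h4
  intro x
  have h6 := congrArg (fun P : ℝ[X] => P.eval x) key
  simp only [eval_mul, eval_pow, eval_X, eval_comp] at h6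
  exact h6

end Pool.Agent.Gold
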