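import Mathlib
import Pool.Agent.Gold.LocInst
import Pool.Agent.Gold.Trans

/-!
Comparison of the double representation with the square of the single one.
-/

set_option autoImplicit false

namespace Pool.Agent.Gold

open Helper70.BLB
open scoped Classical

/-- Supported on the admissible configurations. -/
def Sup (f : Fn Bool) : Prop := ∀ x a, ¬ AD adm x a → f x a = 0

/-- The square of a function. -/
def fsq (f : Fn Bool) : Fn (Bool × Bool) :=
  fun x a => f x (fun i => (a i).1) * f x (fun i => (a i).2)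

theorem fsq_apply (f : Fn Bool) (x : ℕ → Bool) (a : ℕ → Bool × Bool) :
    fsq f x a = f x (fun i => (a i).1) * f x (fun i => (a i).2) := rfl

theorem AD2_iff (x : ℕ → Bool) (a : ℕ → Bool × Bool) :
    AD adm2 x a ↔ AD adm x (fun i => (a i).1) ∧ AD adm x (fun i => (a i).2) := by
  unfold AD adm2
  simp only [Bool.and_eq_true]
  exact forall_and

/-- Finite sums of squares. -/
def Cone : AddSubmonoid (Fn (Bool × Bool)) := AddSubmonoid.closure {ψ | ∃ f, Sup f ∧ ψ = fsq f}

theorem fsq_mem {f : Fn Bool} (hf : Sup f) : fsq f ∈ Cone :=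
  AddSubmonoid.subset_closure ⟨f, hf, rfl⟩

theorem fsq_smul (c : ℝ) (f : Fn Bool) : fsq (c • f) = (c ^ 2) • fsq f := by
  funext x a
  simp only [fsq_apply, Pi.smul_apply, smul_eq_mul]
  ring

theorem Sup.smul {f : Fn Bool} (hf : Sup f) (c : ℝ) : Sup (c • f) := by
  intro x a h
  simp only [Pi.smul_apply, smul_eq_mul, hf x a h, mul_zero]

theorem Sup.add {f g : Fn Bool} (hf : Sup f) (hg : Sup g) : Sup (f + g) := by
  intro x a h
  simp only [Pi.add_apply, hf x a h, hg x a h, add_zero]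

theorem Sup.sub {f g : Fn Bool} (hf : Sup f) (hg : Sup g) : Sup (f - g) := by
  intro x a h
  simp only [Pi.sub_apply, hf x a h, hg x a h, sub_zero]

theorem Cone.smul {c : ℝ} (hc : 0 ≤ c) {ψ : Fn (Bool × Bool)} (h : ψ ∈ Cone) : c • ψ ∈ Cone := by
  induction h using AddSubmonoid.closure_induction with
  | mem x hx =>
    obtain ⟨f, hf, rfl⟩ := hx
    have : c • fsq f = fsq (Real.sqrt c • f) := by rw [fsq_smul, Real.sq_sqrt hc]
    rw [this]
    exact fsq_mem (hf.smul _)
  | zero => rw [smul_zero]; exact Cone.zero_mem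
  | add x y _ _ hx hy => rw [smul_add]; exact Cone.add_mem hx hy

theorem Cone.nonneg {ψ : Fn (Bool × Bool)} (h : ψ ∈ Cone) (x : ℕ → Bool) (a : ℕ → Bool) :
    0 ≤ ψ x (fun i => (a i, a i)) := by
  induction h using AddSubmonoid.closure_induction with
  | mem y hy =>
    obtain ⟨f, hf, rfl⟩ := hy
    exact mul_self_nonneg _
  | zero => exact le_rfl
  | add y z _ _ hy hz => exact add_nonneg hy hz

/-- `ψ` dominates the square of `f`. -/
def Dominates (f : Fn Bool) (ψ : Fn (Bool × Bool)) : Prop :=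
  ∃ c : ℝ, 0 < c ∧ ∃ κ ∈ Cone, ψ = c • fsq f + κ

/-- A pair of operators that is compatible with squares. -/
def Pres (T1 : Module.End ℝ (Fn Bool)) (T2 : Module.End ℝ (Fn (Bool × Bool))) : Prop :=
  ∀ f, Sup f → Sup (T1 f) ∧ Dominates (T1 f) (T2 (fsq f))

theorem Dominates.mem {f : Fn Bool} {ψ : Fn (Bool × Bool)} (hf : Sup f) (h : Dominates f ψ) :
    ψ ∈ Cone := by
  obtain ⟨c, hc, κ, hκ, rfl⟩ := h
  exact Cone.add_mem (Cone.smul hc.le (fsq_mem hf)) hκ

theorem Pres.cone {T1 : Module.End ℝ (Fn Bool)} {T2 : Module.End ℝ (Fn (Bool × Bool))}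
    (H : Pres T1 T2) {ψ : Fn (Bool × Bool)} (h : ψ ∈ Cone) : T2 ψ ∈ Cone := by
  induction h using AddSubmonoid.closure_induction with
  | mem x hx =>
    obtain ⟨f, hf, rfl⟩ := hx
    exact (H f hf).2.mem (H f hf).1
  | zero => rw [map_zero]; exact Cone.zero_mem
  | add x y _ _ hx hy => rw [map_add]; exact Cone.add_mem hx hy

theorem Pres.dom {T1 : Module.End ℝ (Fn Bool)} {T2 : Module.End ℝ (Fn (Bool × Bool))}
    (H : Pres T1 T2) {f : Fn Bool} (hf : Sup f) {ψ : Fn (Bool × Bool)} (h : Dominates f ψ) :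
    Dominates (T1 f) (T2 ψ) := by
  obtain ⟨c, hc, κ, hκ, rfl⟩ := h
  obtain ⟨c', hc', κ', hκ', h'⟩ := (H f hf).2
  refine ⟨c * c', mul_pos hc hc', c • κ' + T2 κ, Cone.add_mem (Cone.smul hc.le hκ') (H.cone hκ),
    ?_⟩
  rw [map_add, map_smul, h', smul_add, smul_smul, add_assoc]

theorem Pres.mul {S1 T1 : Module.End ℝ (Fn Bool)} {S2 T2 : Module.End ℝ (Fn (Bool × Bool))}
    (HS : Pres S1 S2) (HT : Pres T1 T2) : Pres (S1 * T1) (S2 * T2) := by
  intro f hf
  obtain ⟨h1, h2⟩ := HT f hf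
  exact ⟨(HS _ h1).1, HS.dom h1 h2⟩

theorem Pres.one : Pres 1 1 := fun f hf => ⟨hf, 1, one_pos, 0, Cone.zero_mem, by simp⟩

theorem Pres.smul {T1 : Module.End ℝ (Fn Bool)} {T2 : Module.End ℝ (Fn (Bool × Bool))}
    (H : Pres T1 T2) {a b : ℝ} (ha : a ≠ 0) (hb : 0 < b) : Pres (a • T1) (b • T2) := by
  intro f hf
  obtain ⟨h1, c, hc, κ, hκ, h2⟩ := H f hf
  refine ⟨h1.smul a, b * c / a ^ 2, by positivity, b • κ, Cone.smul hb.le hκ, ?_⟩
  rw [LinearMap.smul_apply, LinearMap.smul_apply, h2, fsq_smul, smul_smul, smul_add, smul_smul]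
  congr 2
  field_simp

/-- Two squares. -/
theorem fsq_par (u v : Fn Bool) :
    fsq u + fsq v = (1 / 2 : ℝ) • fsq (u + v) + (1 / 2 : ℝ) • fsq (u - v) := by
  funext x a
  simp only [fsq_apply, Pi.add_apply, Pi.sub_apply, Pi.smul_apply, smul_eq_mul]
  ring

theorem Pres.add_one {T1 : Module.End ℝ (Fn Bool)} {T2 : Module.End ℝ (Fn (Bool × Bool))}
    (H : Pres T1 T2) : Pres (T1 + 1) (T2 + 1) := by
  intro f hf
  obtain ⟨h1, c, hc, κ, hκ, h2⟩ := H f hf
  have hs : Sup ((T1 + 1) f) := h1.add hf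
  refine ⟨hs, ?_⟩
  set m : ℝ := min c 1 with hm
  have hm0 : 0 < m := lt_min hc one_pos
  have hm1 : m ≤ c := min_le_left _ _
  have hm2 : m ≤ 1 := min_le_right _ _
  refine ⟨m / 2, by positivity, (m / 2) • fsq (T1 f - f) + ((c - m) • fsq (T1 f) +
    ((1 - m) • fsq f + κ)), ?_, ?_⟩
  · refine Cone.add_mem (Cone.smul (by positivity) (fsq_mem (h1.sub hf))) (Cone.add_mem
      (Cone.smul (by linarith) (fsq_mem h1)) (Cone.add_mem (Cone.smul (by linarith) (fsq_mem hf))
      hκ))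
  · have e1 : (T2 + 1) (fsq f) = T2 (fsq f) + fsq f := rfl
    have e2 : (T1 + 1) f = T1 f + f := rfl
    rw [e1, e2, h2]
    have h3 := congrArg (fun z => m • z) (fsq_par (T1 f) f)
    simp only [smul_add, smul_smul] at h3
    have e3 : m * (1 / 2) = m / 2 := by ring
    rw [e3] at h3
    have e4 : (m / 2) • fsq (T1 f + f) + ((m / 2) • fsq (T1 f - f) + ((c - m) • fsq (T1 f) +
        ((1 - m) • fsq f + κ))) = ((m / 2) • fsq (T1 f + f) + (m / 2) • fsq (T1 f - f)) +
        ((c - m) • fsq (T1 f) + ((1 - m) • fsq f + κ)) := by abel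
    rw [e4, ← h3, sub_smul, sub_smul, one_smul]
    abel

/-- The operator `J`. -/
theorem pres_J (i : ℕ) : Pres (JJ adm i) (JJ adm2 i) := by
  intro f hf
  refine ⟨fun x a h => by rw [JJ_apply, if_neg (fun h' => h h'.1)], 1, one_pos, 0,
    Cone.zero_mem, ?_⟩
  rw [one_smul, add_zero]
  funext x a
  rw [fsq_apply, JJ_apply, JJ_apply, JJ_apply, AD2_iff]
  by_cases h1 : AD adm x (fun i => (a i).1)
  · by_cases h2 : AD adm x (fun i => (a i).2)
    · by_cases h3 : x (i + 1) = false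
      · rw [if_pos ⟨⟨h1, h2⟩, h3⟩, if_pos ⟨h1, h3⟩, if_pos ⟨h2, h3⟩]
        rfl
      · rw [if_neg (fun h => h3 h.2), if_neg (fun h => h3 h.2), zero_mul]
    · rw [if_neg (fun h => h2 h.1.2), if_neg (c := AD adm x (fun i => (a i).2) ∧ _)
        (fun h => h2 h.1), mul_zero]
  · rw [if_neg (fun h => h1 h.1.1), if_neg (fun h => h1 h.1), zero_mul]

/-- The operator `1 - J`. -/
theorem pres_H (i : ℕ) : Pres (1 - JJ adm i) (1 - JJ adm2 i) := by
  intro f hf
  have e1 : ∀ x a, (1 - JJ adm i) f x a = if x (i + 1) = false then 0 else f x a := by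
    intro x a
    have : (1 - JJ adm i) f x a = f x a - JJ adm i f x a := rfl
    rw [this, JJ_apply]
    by_cases h1 : AD adm x a
    · by_cases h2 : x (i + 1) = false
      · rw [if_pos ⟨h1, h2⟩, if_pos h2, sub_self]
      · rw [if_neg (fun h => h2 h.2), if_neg h2, sub_zero]
    · rw [if_neg (fun h => h1 h.1), hf x a h1, sub_zero, ite_self]
  refine ⟨fun x a h => by rw [e1, hf x a h, ite_self], 1, one_pos, 0, Cone.zero_mem, ?_⟩
  rw [one_smul, add_zero]
  funext x a
  rw [fsq_apply, e1, e1]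
  have : (1 - JJ adm2 i) (fsq f) x a = fsq f x a - JJ adm2 i (fsq f) x a := rfl
  rw [this, JJ_apply, AD2_iff, fsq_apply]
  by_cases h1 : AD adm x (fun i => (a i).1)
  · by_cases h2 : AD adm x (fun i => (a i).2)
    · by_cases h3 : x (i + 1) = false
      · rw [if_pos ⟨⟨h1, h2⟩, h3⟩, if_pos h3, if_pos h3, sub_self, zero_mul]
      · rw [if_neg (fun h => h3 h.2), if_neg h3, if_neg h3, sub_zero]
    · rw [if_neg (fun h => h2 h.1.2), hf x _ h2, ite_self]
      simp
  · rw [if_neg (fun h => h1 h.1.1), hf x _ h1, ite_self]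
    simp

/-- The part of `V` that sets the gaps to `k`. -/
noncomputable def gk (i : ℕ) (f : Fn Bool) (k : Bool × Bool) : Fn Bool := fun x a =>
  if AD adm x a then ∑ a' : Bool, V1 (a i) (x (i + 1)) (x (i + 2)) (a (i + 2)) (a (i + 1))
    k.1 k.2 a' * f (ux x (i + 1) k.1 k.2) (ua a (i + 1) a') else 0

theorem gk_sup (i : ℕ) (f : Fn Bool) (k : Bool × Bool) : Sup (gk i f k) := by
  intro x a h
  unfold gk
  rw [if_neg h]

theorem V1_sum (i : ℕ) {f : Fn Bool} (hf : Sup f) :
    (DD adm K1 i - 1) f = ∑ k : Bool × Bool, gk i f k := by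
  funext x a
  rw [Finset.sum_apply, Finset.sum_apply]
  have h0 : (DD adm K1 i - 1) f x a = DD adm K1 i f x a - f x a := rfl
  rw [h0, DD_apply]
  by_cases hA : AD adm x a
  · rw [if_pos hA]
    have h1 : ∀ k : Bool × Bool, gk i f k x a = ∑ a' : Bool,
        V1 (a i) (x (i + 1)) (x (i + 2)) (a (i + 2)) (a (i + 1)) k.1 k.2 a' *
          f (ux x (i + 1) k.1 k.2) (ua a (i + 1) a') := fun k => by
      unfold gk; rw [if_pos hA]
    simp only [h1]
    have h2 : f x a = ∑ u : Bool × Bool × Bool,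
        (if u.1 = x (i + 1) ∧ u.2.1 = x (i + 2) ∧ u.2.2 = a (i + 1) then 1 else 0) *
          f (cx i x u) (ca i a u) := by
      rw [Finset.sum_eq_single (x (i + 1), x (i + 2), a (i + 1))]
      · rw [if_pos ⟨rfl, rfl, rfl⟩, one_mul]
        have e1 : cx i x (x (i + 1), x (i + 2), a (i + 1)) = x := ux_id x (i + 1)
        have e2 : ca i a (x (i + 1), x (i + 2), a (i + 1)) = a := ua_id a (i + 1)
        rw [e1, e2]
      · rintro ⟨u1, u2, u3⟩ _ hne
        rw [if_neg, zero_mul]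
        rintro ⟨h3, h4, h5⟩
        exact hne (by rw [Prod.mk.injEq, Prod.mk.injEq]; exact ⟨h3, h4, h5⟩)
      · simp
    rw [h2, ← Finset.sum_sub_distrib]
    have h3 : ∀ u : Bool × Bool × Bool, kat K1 i x a u * f (cx i x u) (ca i a u) -
        (if u.1 = x (i + 1) ∧ u.2.1 = x (i + 2) ∧ u.2.2 = a (i + 1) then 1 else 0) *
          f (cx i x u) (ca i a u) =
        V1 (a i) (x (i + 1)) (x (i + 2)) (a (i + 2)) (a (i + 1)) u.1 u.2.1 u.2.2 *
          f (ux x (i + 1) u.1 u.2.1) (ua a (i + 1) u.2.2) := by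
      intro u
      rw [← sub_mul]
      rfl
    rw [Finset.sum_congr rfl (fun u _ => h3 u)]
    simp only [Fintype.sum_prod_type]
  · rw [if_neg hA, hf x a hA, sub_zero]
    symm
    exact Finset.sum_eq_zero fun k _ => gk_sup i f k x a hA

theorem V2_sum (i : ℕ) {f : Fn Bool} (hf : Sup f) (x : ℕ → Bool) (a : ℕ → Bool × Bool) :
    (DD adm2 K2 i - 1) (fsq f) x a = ∑ k : Bool × Bool,
      κr (x (i + 1)) (x (i + 2)) k.1 k.2 * fsq (gk i f k) x a := by
  have h0 : (DD adm2 K2 i - 1) (fsq f) x a = DD adm2 K2 i (fsq f) x a - fsq f x a := rfl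
  rw [h0, DD_apply]
  by_cases hA : AD adm2 x a
  · rw [if_pos hA]
    obtain ⟨hA1, hA2⟩ := (AD2_iff x a).1 hA
    have h1 : ∀ k : Bool × Bool, fsq (gk i f k) x a =
        (∑ a' : Bool, V1 (a i).1 (x (i + 1)) (x (i + 2)) (a (i + 2)).1 (a (i + 1)).1 k.1 k.2 a' *
          f (ux x (i + 1) k.1 k.2) (ua (fun j => (a j).1) (i + 1) a')) *
        (∑ a' : Bool, V1 (a i).2 (x (i + 1)) (x (i + 2)) (a (i + 2)).2 (a (i + 1)).2 k.1 k.2 a' *
          f (ux x (i + 1) k.1 k.2) (ua (fun j => (a j).2) (i + 1) a')) := by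
      intro k
      rw [fsq_apply]
      unfold gk
      rw [if_pos hA1, if_pos hA2]
    simp only [h1]
    have h2 : fsq f x a = ∑ u : Bool × Bool × (Bool × Bool),
        (if u.1 = x (i + 1) ∧ u.2.1 = x (i + 2) ∧ u.2.2 = a (i + 1) then 1 else 0) *
          fsq f (cx i x u) (ca i a u) := by
      rw [Finset.sum_eq_single (x (i + 1), x (i + 2), a (i + 1))]
      · rw [if_pos ⟨rfl, rfl, rfl⟩, one_mul]
        have e1 : cx i x (x (i + 1), x (i + 2), a (i + 1)) = x := ux_id x (i + 1)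
        have e2 : ca i a (x (i + 1), x (i + 2), a (i + 1)) = a := ua_id a (i + 1)
        rw [e1, e2]
      · rintro ⟨u1, u2, u3⟩ _ hne
        rw [if_neg, zero_mul]
        rintro ⟨h3, h4, h5⟩
        exact hne (by rw [Prod.mk.injEq, Prod.mk.injEq]; exact ⟨h3, h4, h5⟩)
      · simp
    rw [h2, ← Finset.sum_sub_distrib]
    have h3 : ∀ u : Bool × Bool × (Bool × Bool), kat K2 i x a u * fsq f (cx i x u) (ca i a u) -
        (if u.1 = x (i + 1) ∧ u.2.1 = x (i + 2) ∧ u.2.2 = a (i + 1) then 1 else 0) *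
          fsq f (cx i x u) (ca i a u) =
        κr (x (i + 1)) (x (i + 2)) u.1 u.2.1 *
        ((V1 (a i).1 (x (i + 1)) (x (i + 2)) (a (i + 2)).1 (a (i + 1)).1 u.1 u.2.1 u.2.2.1 *
          f (ux x (i + 1) u.1 u.2.1) (ua (fun j => (a j).1) (i + 1) u.2.2.1)) *
        (V1 (a i).2 (x (i + 1)) (x (i + 2)) (a (i + 2)).2 (a (i + 1)).2 u.1 u.2.1 u.2.2.2 *
          f (ux x (i + 1) u.1 u.2.1) (ua (fun j => (a j).2) (i + 1) u.2.2.2))) := by
      intro u
      have e1 : kat K2 i x a u = _ := vrel (a i) (x (i + 1)) (a (i + 1)) (hA i) (x (i + 2))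
        (a (i + 2)) (hA (i + 1)) u.1 u.2.1 u.2.2
      have e2 : fsq f (cx i x u) (ca i a u) =
          f (ux x (i + 1) u.1 u.2.1) (ua (fun j => (a j).1) (i + 1) u.2.2.1) *
          f (ux x (i + 1) u.1 u.2.1) (ua (fun j => (a j).2) (i + 1) u.2.2.2) := by
        rw [fsq_apply]
        have e3 : (fun j => (ca i a u j).1) = ua (fun j => (a j).1) (i + 1) u.2.2.1 := by
          funext j
          simp only [ca, ua]
          split_ifs <;> rfl
        have e4 : (fun j => (ca i a u j).2) = ua (fun j => (a j).2) (i + 1) u.2.2.2 := by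
          funext j
          simp only [ca, ua]
          split_ifs <;> rfl
        rw [e3, e4]
        rfl
      rw [e1, e2]
      have e5 : ∀ (P : Prop) (d1 d2 : Decidable P), (@ite ℝ P d1 1 0) = (@ite ℝ P d2 1 0) := by
        intro P d1 d2
        congr
      rw [e5 _ _ (Classical.propDecidable _)]
      ring
    rw [Finset.sum_congr rfl (fun u _ => h3 u)]
    simp only [Fintype.sum_prod_type, Fintype.sum_bool]
    ring
  · rw [if_neg hA]
    have h1 : fsq f x a = 0 := by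
      rw [fsq_apply]
      by_cases h2 : AD adm x (fun i => (a i).1)
      · rw [hf x (fun i => (a i).2) (fun h3 => hA ((AD2_iff x a).2 ⟨h2, h3⟩)), mul_zero]
      · rw [hf x _ h2, zero_mul]
    rw [h1, sub_zero]
    symm
    refine Finset.sum_eq_zero fun k _ => ?_
    have h4 : fsq (gk i f k) x a = 0 := by
      rw [fsq_apply]
      by_cases h2 : AD adm x (fun i => (a i).1)
      · rw [gk_sup i f k x (fun i => (a i).2) (fun h3 => hA ((AD2_iff x a).2 ⟨h2, h3⟩)),
          mul_zero]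
      · rw [gk_sup i f k x _ h2, zero_mul]
    rw [h4, mul_zero]

/-- The operator `V`. -/
theorem pres_V (i : ℕ) : Pres (DD adm K1 i - 1) (DD adm2 K2 i - 1) := by
  intro f hf
  have hsum := V1_sum i hf
  have hs : Sup (∑ k : Bool × Bool, gk i f k) := by
    intro x a h
    rw [Finset.sum_apply, Finset.sum_apply]
    exact Finset.sum_eq_zero fun k _ => gk_sup i f k x a h
  rw [hsum]
  refine ⟨hs, 1 / 8, by norm_num, ∑ k : Bool × Bool,
    (fsq (fun x a => Real.sqrt (κr (x (i + 1)) (x (i + 2)) k.1 k.2 - 1 / 2) * gk i f k x a) +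
      (1 / 2 : ℝ) • fsq (gk i f k - (1 / 4 : ℝ) • ∑ l : Bool × Bool, gk i f l)), ?_, ?_⟩
  · refine Cone.sum_mem fun k _ => Cone.add_mem (fsq_mem ?_) (Cone.smul (by norm_num)
      (fsq_mem ((gk_sup i f k).sub (hs.smul _))))
    intro x a h
    simp only
    rw [gk_sup i f k x a h, mul_zero]
  · funext x a
    rw [V2_sum i hf]
    simp only [Pi.add_apply, Pi.smul_apply, smul_eq_mul, Finset.sum_apply, fsq_apply,
      Pi.sub_apply]
    have h1 : ∀ k : Bool × Bool, κr (x (i + 1)) (x (i + 2)) k.1 k.2 =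
        Real.sqrt (κr (x (i + 1)) (x (i + 2)) k.1 k.2 - 1 / 2) *
        Real.sqrt (κr (x (i + 1)) (x (i + 2)) k.1 k.2 - 1 / 2) + 1 / 2 := by
      intro k
      rw [Real.mul_self_sqrt (by linarith [κr_pos (x (i + 1)) (x (i + 2)) k.1 k.2])]
      ring
    simp only [Fintype.sum_prod_type, Fintype.sum_bool]
    have h2 := fun b1 b2 : Bool => h1 (b1, b2)
    simp only at h2
    set s1 := Real.sqrt (κr (x (i + 1)) (x (i + 2)) true true - 1 / 2)
    set s2 := Real.sqrt (κr (x (i + 1)) (x (i + 2)) true false - 1 / 2)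
    set s3 := Real.sqrt (κr (x (i + 1)) (x (i + 2)) false true - 1 / 2)
    set s4 := Real.sqrt (κr (x (i + 1)) (x (i + 2)) false false - 1 / 2)
    rw [h2 true true, h2 true false, h2 false true, h2 false false]
    ring

/-- The operator `D`. -/
theorem pres_D (i : ℕ) : Pres (DD adm K1 i) (DD adm2 K2 i) := by
  have h := (pres_V i).add_one
  rw [sub_add_cancel, sub_add_cancel] at h
  exact h

end Pool.Agent.Gold
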