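import Mathlib

/-!
The chromatic polynomial of a finite graph does not vanish at `φ + 1`, `φ` the golden ratio.
-/

set_option autoImplicit false

namespace Pool.Agent.Gold

open Polynomial

namespace GZ

section count

variable {V : Type}

open scoped Classical in
/-- The map identifying the class of `v` with the class of `u`. -/
noncomputable def gmap (m : Setoid V) (u v : V) (x : V) : Quotient m :=
  if Quotient.mk m x = Quotient.mk m v then Quotient.mk m u else Quotient.mk m x

/-- The equivalence relation generated by `m` and the pair `(u, v)`. -/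
noncomputable def glue (m : Setoid V) (u v : V) : Setoid V := Setoid.ker (gmap m u v)

theorem glue_le (m s : Setoid V) (u v : V) : glue m u v ≤ s ↔ m ≤ s ∧ s u v := by
  classical
  constructor
  · intro h
    constructor
    · intro x y hxy
      apply h
      show gmap m u v x = gmap m u v y
      have h1 : Quotient.mk m x = Quotient.mk m y := Quotient.sound hxy
      unfold gmap
      rw [h1]
    · apply h
      show gmap m u v u = gmap m u v v
      unfold gmap
      simp
  · rintro ⟨h1, h2⟩ x y hxy
    have h3 : gmap m u v x = gmap m u v y := hxy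
    unfold gmap at h3
    split_ifs at h3 with hx hy hy
    · exact s.trans (h1 (Quotient.exact hx)) (s.symm (h1 (Quotient.exact hy)))
    · exact s.trans (h1 (Quotient.exact hx)) (s.trans (s.symm h2) (h1 (Quotient.exact h3)))
    · exact s.trans (h1 (Quotient.exact h3)) (s.trans h2 (s.symm (h1 (Quotient.exact hy))))
    · exact h1 (Quotient.exact h3)

theorem le_glue (m : Setoid V) (u v : V) : m ≤ glue m u v := ((glue_le m _ u v).1 le_rfl).1

theorem glue_rel (m : Setoid V) (u v : V) : glue m u v u v := ((glue_le m _ u v).1 le_rfl).2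

theorem glue_eq (m : Setoid V) (u v : V) (h : m u v) : glue m u v = m :=
  le_antisymm ((glue_le m m u v).2 ⟨le_rfl, h⟩) (le_glue m u v)

/-- The number of classes. -/
noncomputable def nc (m : Setoid V) : ℕ := Nat.card (Quotient m)

theorem nc_glue [Finite V] (m : Setoid V) (u v : V) (h : ¬ m u v) : nc (glue m u v) + 1 = nc m := by
  classical
  have hne : Quotient.mk m u ≠ Quotient.mk m v := fun he => h (Quotient.exact he)
  unfold nc glue
  rw [Nat.card_congr (Setoid.quotientKerEquivRange (gmap m u v))]
  have h1 : Set.range (gmap m u v) = {Quotient.mk m v}ᶜ := by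
    ext c
    simp only [Set.mem_range, Set.mem_compl_iff, Set.mem_singleton_iff]
    constructor
    · rintro ⟨x, rfl⟩
      unfold gmap
      split_ifs with hx
      · exact hne
      · exact hx
    · intro hc
      induction c using Quotient.inductionOn with
      | h x =>
        refine ⟨x, ?_⟩
        unfold gmap
        rw [if_neg hc]
  rw [h1]
  have h2 := Set.ncard_add_ncard_compl ({Quotient.mk m v} : Set (Quotient m))
  rw [Set.ncard_singleton] at h2
  rw [← h2, add_comm]
  rfl

/-- The equivalence relation generated by `m` and the pairs in `l`. -/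
noncomputable def sg (l : List (V × V)) (m : Setoid V) : Setoid V :=
  l.foldr (fun e s => glue s e.1 e.2) m

theorem sg_nil (m : Setoid V) : sg [] m = m := rfl

theorem sg_cons (e : V × V) (l : List (V × V)) (m : Setoid V) :
    sg (e :: l) m = glue (sg l m) e.1 e.2 := rfl

theorem sg_le (l : List (V × V)) (m s : Setoid V) :
    sg l m ≤ s ↔ m ≤ s ∧ ∀ e ∈ l, s e.1 e.2 := by
  induction l with
  | nil => simp [sg_nil]
  | cons e l ih =>
    rw [sg_cons, glue_le, ih]
    simp only [List.mem_cons, forall_eq_or_imp]
    tauto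

theorem sg_glue (l : List (V × V)) (m : Setoid V) (u v : V) :
    sg l (glue m u v) = glue (sg l m) u v := by
  have h : ∀ s, sg l (glue m u v) ≤ s ↔ glue (sg l m) u v ≤ s := by
    intro s
    rw [sg_le, glue_le, glue_le, sg_le]
    tauto
  exact le_antisymm ((h _).2 le_rfl) ((h _).1 le_rfl)

/-- The polynomial counting the maps constant on the classes of `m` and separating the pairs
in `l`. -/
noncomputable def pol : List (V × V) → Setoid V → ℤ[X]
  | [], m => X ^ nc m
  | e :: l, m => pol l m - pol l (glue m e.1 e.2)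

theorem pol_nil (m : Setoid V) : pol [] m = X ^ nc m := rfl

theorem pol_cons (e : V × V) (l : List (V × V)) (m : Setoid V) :
    pol (e :: l) m = pol l m - pol l (glue m e.1 e.2) := rfl

/-- The condition on colourings. -/
def Good (l : List (V × V)) (m : Setoid V) {n : ℕ} (f : V → Fin n) : Prop :=
  m ≤ Setoid.ker f ∧ ∀ e ∈ l, f e.1 ≠ f e.2

theorem good_glue (l : List (V × V)) (m : Setoid V) {n : ℕ} (u v : V) (f : V → Fin n) :
    Good l (glue m u v) f ↔ Good l m f ∧ f u = f v := by
  unfold Good
  rw [glue_le]
  have : (Setoid.ker f) u v ↔ f u = f v := Iff.rfl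
  rw [this]
  tauto

theorem good_cons (e : V × V) (l : List (V × V)) (m : Setoid V) {n : ℕ} (f : V → Fin n) :
    Good (e :: l) m f ↔ Good l m f ∧ ¬ f e.1 = f e.2 := by
  unfold Good
  simp only [List.mem_cons, forall_eq_or_imp]
  tauto

variable [Fintype V]

open scoped Classical in
theorem pol_eval (n : ℕ) (l : List (V × V)) : ∀ m : Setoid V,
    (pol l m).eval (n : ℤ) = ((Finset.univ.filter (fun f : V → Fin n => Good l m f)).card : ℤ) := by
  induction l with
  | nil =>
    intro m
    rw [pol_nil, eval_pow, eval_X]
    have h1 : (Finset.univ.filter (fun f : V → Fin n => Good [] m f)).card = n ^ nc m := by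
      have h2 : (Finset.univ.filter (fun f : V → Fin n => Good [] m f)).card =
          Nat.card {f : V → Fin n // m ≤ Setoid.ker f} := by
        rw [Nat.card_eq_fintype_card, Fintype.card_subtype]
        congr 1
        ext f
        simp [Good]
      rw [h2, Nat.card_congr (Setoid.liftEquiv (β := Fin n) m), Nat.card_fun, Nat.card_fin]
      rfl
    rw [h1]
    push_cast
    rfl
  | cons e l ih =>
    intro m
    rw [pol_cons, eval_sub, ih, ih]
    have h1 := Finset.card_filter_add_card_filter_not
      (s := Finset.univ.filter (fun f : V → Fin n => Good l m f)) (fun f => f e.1 = f e.2)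
    rw [Finset.filter_filter, Finset.filter_filter] at h1
    have h2 : (Finset.univ.filter (fun f : V → Fin n => Good l m f ∧ f e.1 = f e.2)) =
        Finset.univ.filter (fun f : V → Fin n => Good l (glue m e.1 e.2) f) := by
      ext f
      simp only [Finset.mem_filter, Finset.mem_univ, true_and, good_glue]
    have h3 : (Finset.univ.filter (fun f : V → Fin n => Good l m f ∧ ¬ f e.1 = f e.2)) =
        Finset.univ.filter (fun f : V → Fin n => Good (e :: l) m f) := by
      ext f
      simp only [Finset.mem_filter, Finset.mem_univ, true_and, good_cons]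
    rw [h2, h3] at h1
    rw [← h1]
    push_cast
    ring

omit [Fintype V] in
theorem pol_eq_zero (l : List (V × V)) : ∀ m : Setoid V, (∃ e ∈ l, m e.1 e.2) → pol l m = 0 := by
  induction l with
  | nil =>
    rintro m ⟨e, he, -⟩
    simp at he
  | cons e l ih =>
    rintro m ⟨e', he', hm⟩
    rw [pol_cons]
    rcases List.mem_cons.1 he' with rfl | he''
    · rw [glue_eq m _ _ hm, sub_self]
    · rw [ih m ⟨e', he'', hm⟩, ih (glue m e.1 e.2) ⟨e', he'', le_glue m _ _ hm⟩, sub_zero]

theorem int_poly_ext (P Q : ℤ[X]) (h : ∀ n : ℕ, 0 < n → P.eval (n : ℤ) = Q.eval (n : ℤ)) :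
    P = Q := by
  apply Polynomial.eq_of_infinite_eval_eq
  apply Set.Infinite.mono (s := Set.range (fun n : ℕ => ((n + 1 : ℕ) : ℤ)))
  · rintro _ ⟨n, rfl⟩
    exact h (n + 1) (Nat.succ_pos n)
  · apply Set.infinite_range_of_injective
    intro a b hab
    have : ((a + 1 : ℕ) : ℤ) = ((b + 1 : ℕ) : ℤ) := hab
    omega

/-- Translation of the values on a class. -/
theorem pol_bridge (l : List (V × V)) (m : Setoid V) (u v : V) (h : ¬ sg l m u v) :
    pol l m = X * pol l (glue m u v) := by
  classical
  apply int_poly_ext
  intro n hn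
  have : NeZero n := ⟨hn.ne'⟩
  rw [eval_mul, eval_X, pol_eval, pol_eval]
  have hm : m ≤ sg l m := ((sg_le l m _).1 le_rfl).1
  have hl : ∀ e ∈ l, sg l m e.1 e.2 := ((sg_le l m _).1 le_rfl).2
  -- translation
  let tr : Fin n → (V → Fin n) → V → Fin n := fun a f x => if sg l m u x then f x + a else f x
  have htr : ∀ a b f, tr a (tr b f) = tr (b + a) f := by
    intro a b f
    funext x
    simp only [tr]
    split_ifs
    · rw [add_assoc]
    · rfl
  have htr0 : ∀ f, tr 0 f = f := by
    intro f
    funext x
    simp only [tr]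
    split_ifs
    · rw [add_zero]
    · rfl
  have hiff : ∀ x y, sg l m x y → (sg l m u x ↔ sg l m u y) := fun x y hxy =>
    ⟨fun h1 => (sg l m).trans h1 hxy, fun h1 => (sg l m).trans h1 ((sg l m).symm hxy)⟩
  have heq : ∀ a f x y, sg l m x y → (tr a f x = tr a f y ↔ f x = f y) := by
    intro a f x y hxy
    have h1 := hiff x y hxy
    simp only [tr]
    by_cases h2 : sg l m u x
    · rw [if_pos h2, if_pos (h1.1 h2), add_left_inj]
    · rw [if_neg h2, if_neg (fun h3 => h2 (h1.2 h3))]
  have hgood : ∀ a f, Good l m f → Good l m (tr a f) := by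
    rintro a f ⟨h1, h2⟩
    refine ⟨fun x y hxy => (heq a f x y (hm hxy)).2 (h1 hxy), fun e he => ?_⟩
    rw [Ne, heq a f _ _ (hl e he)]
    exact h2 e he
  have htru : ∀ a f, tr a f u = f u + a := by
    intro a f
    simp only [tr]
    rw [if_pos ((sg l m).refl u)]
  have htrv : ∀ a f, tr a f v = f v := by
    intro a f
    simp only [tr]
    rw [if_neg h]
  have hcard : (Finset.univ.filter (fun f : V → Fin n => Good l m f)).card =
      ((Finset.univ : Finset (Fin n)) ×ˢ
        (Finset.univ.filter (fun f : V → Fin n => Good l (glue m u v) f))).card := by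
    apply Finset.card_bij' (fun f _ => (f v - f u, tr (f v - f u) f))
      (fun z _ => tr (-z.1) z.2)
    · intro f hf
      simp only [Finset.mem_filter, Finset.mem_univ, true_and, Finset.mem_product] at hf ⊢
      rw [good_glue]
      refine ⟨hgood _ f hf, ?_⟩
      rw [htru, htrv]
      abel
    · intro z hz
      simp only [Finset.mem_filter, Finset.mem_univ, true_and, Finset.mem_product] at hz ⊢
      rw [good_glue] at hz
      exact hgood _ _ hz.1
    · intro f hf
      simp only
      rw [htr, add_neg_cancel, htr0]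
    · intro z hz
      simp only [Finset.mem_filter, Finset.mem_univ, true_and, Finset.mem_product] at hz
      rw [good_glue] at hz
      have h1 : tr (-z.1) z.2 v - tr (-z.1) z.2 u = z.1 := by
        rw [htrv, htru, hz.2]
        abel
      apply Prod.ext
      · exact h1
      · show tr (tr (-z.1) z.2 v - tr (-z.1) z.2 u) (tr (-z.1) z.2) = z.2
        rw [h1, htr, neg_add_cancel, htr0]
  rw [hcard, Finset.card_product, Finset.card_univ, Fintype.card_fin]
  push_cast
  rfl

/-- The sign on the open unit interval. -/
theorem pol_sign (q : ℝ) (h0 : 0 < q) (h1 : q < 1) (l : List (V × V)) : ∀ m : Setoid V,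
    (∀ e ∈ l, ¬ m e.1 e.2) →
      0 < (-1 : ℝ) ^ (nc m + nc (sg l m)) * ((pol l m).map (Int.castRingHom ℝ)).eval q := by
  induction l with
  | nil =>
    intro m _
    rw [sg_nil, pol_nil, Polynomial.map_pow, map_X, eval_pow, eval_X, ← two_mul, pow_mul]
    simp only [even_two, Even.neg_pow, one_pow, one_mul]
    exact pow_pos h0 _
  | cons e l ih =>
    intro m hm
    have hme : ¬ m e.1 e.2 := hm e List.mem_cons_self
    have hml : ∀ e' ∈ l, ¬ m e'.1 e'.2 := fun e' he' => hm e' (List.mem_cons_of_mem _ he')
    have ih1 := ih m hml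
    have hk := nc_glue m e.1 e.2 hme
    have hpow : ∀ k : ℕ, (-1 : ℝ) ^ (nc m + k) = -(-1 : ℝ) ^ (nc (glue m e.1 e.2) + k) := by
      intro k
      rw [← hk, add_right_comm, pow_succ]
      ring
    by_cases hs : sg l m e.1 e.2
    · rw [sg_cons, glue_eq _ _ _ hs, pol_cons, Polynomial.map_sub, eval_sub, mul_sub, sub_pos]
      refine lt_of_le_of_lt ?_ ih1
      by_cases hz : ∃ e' ∈ l, glue m e.1 e.2 e'.1 e'.2
      · rw [pol_eq_zero l _ hz, Polynomial.map_zero, eval_zero, mul_zero]
      · have ih2 := ih (glue m e.1 e.2) (fun e' he' hc => hz ⟨e', he', hc⟩)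
        rw [sg_glue, glue_eq _ _ _ hs] at ih2
        rw [hpow, neg_mul]
        linarith
    · have hb := pol_bridge l m e.1 e.2 hs
      have hk2 := nc_glue (sg l m) e.1 e.2 hs
      have hb2 : ((pol l m).map (Int.castRingHom ℝ)).eval q =
          q * ((pol l (glue m e.1 e.2)).map (Int.castRingHom ℝ)).eval q := by
        rw [hb, Polynomial.map_mul, map_X, eval_mul, eval_X]
      rw [hb2, ← hk2, ← add_assoc, pow_succ] at ih1
      rw [sg_cons, pol_cons, Polynomial.map_sub, eval_sub, hb2]
      generalize ((pol l (glue m e.1 e.2)).map (Int.castRingHom ℝ)).eval q = t at ih1 ⊢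
      generalize (-1 : ℝ) ^ (nc m + nc (glue (sg l m) e.1 e.2)) = s at ih1 ⊢
      have h2 : 0 < q * (-(s * t)) := by
        have : s * -1 * (q * t) = q * (-(s * t)) := by ring
        rw [← this]
        exact ih1
      have h3 : 0 < -(s * t) := (mul_pos_iff_of_pos_left h0).1 h2
      have h4 : s * (q * t - t) = (1 - q) * (-(s * t)) := by ring
      rw [h4]
      exact mul_pos (by linarith) h3

end count

/-- Values of integer polynomials at conjugate points. -/
theorem conj_eval (P : ℤ[X]) : ∃ a b : ℤ,
    (P.map (Int.castRingHom ℝ)).eval (Real.goldenRatio + 1) = a + b * Real.goldenRatio ∧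
    (P.map (Int.castRingHom ℝ)).eval (Real.goldenConj + 1) = a + b * Real.goldenConj := by
  induction P using Polynomial.induction_on with
  | C a => exact ⟨a, 0, by simp, by simp⟩
  | add P Q hP hQ =>
    obtain ⟨a, b, h1, h2⟩ := hP
    obtain ⟨a', b', h1', h2'⟩ := hQ
    refine ⟨a + a', b + b', ?_, ?_⟩
    · rw [Polynomial.map_add, eval_add, h1, h1']
      push_cast
      ring
    · rw [Polynomial.map_add, eval_add, h2, h2']
      push_cast
      ring
  | monomial n c h =>
    obtain ⟨a, b, h1, h2⟩ := h
    refine ⟨a + b, a + 2 * b, ?_, ?_⟩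
    · rw [pow_succ, ← mul_assoc, Polynomial.map_mul, map_X, eval_mul, eval_X, h1]
      push_cast
      have := Real.goldenRatio_sq
      linear_combination (b : ℝ) * this
    · rw [pow_succ, ← mul_assoc, Polynomial.map_mul, map_X, eval_mul, eval_X, h2]
      push_cast
      have := Real.goldenConj_sq
      linear_combination (b : ℝ) * this

/-- Conjugation of a zero. -/
theorem conj_zero (P : ℤ[X])
    (h : (P.map (Int.castRingHom ℝ)).eval (Real.goldenRatio + 1) = 0) :
    (P.map (Int.castRingHom ℝ)).eval (Real.goldenConj + 1) = 0 := by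
  obtain ⟨a, b, h1, h2⟩ := conj_eval P
  rw [h1] at h
  have hb : b = 0 := by
    by_contra hb
    have hb' : (b : ℝ) ≠ 0 := by exact_mod_cast hb
    have h3 : Real.goldenRatio = ((-a / b : ℚ) : ℝ) := by
      push_cast
      rw [eq_div_iff hb']
      linarith
    exact Real.goldenRatio_irrational ⟨_, h3.symm⟩
  subst hb
  have ha : (a : ℝ) = 0 := by simpa using h
  rw [h2, ha]
  simp

end GZ

open GZ in
/-- The chromatic polynomial does not vanish at `φ + 1 = φ ^ 2`, `φ` the golden ratio. -/
theorem chrom_ne_zero_golden {V : Type} [Fintype V] (G : SimpleGraph V) (p : ℝ[X])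
    (hp : ∀ n : ℕ, p.eval (n : ℝ) = (Nat.card (G.Coloring (Fin n)) : ℝ)) :
    p.eval (Real.goldenRatio + 1) ≠ 0 := by
  classical
  let l : List (V × V) := (Finset.univ.filter (fun e : V × V => G.Adj e.1 e.2)).toList
  have hl : ∀ e : V × V, e ∈ l ↔ G.Adj e.1 e.2 := by
    intro e
    simp [l]
  have hP : p = (pol l ⊥).map (Int.castRingHom ℝ) := by
    apply Polynomial.eq_of_infinite_eval_eq
    apply Set.Infinite.mono (s := Set.range (fun n : ℕ => (n : ℝ)))
    · rintro _ ⟨n, rfl⟩
      show p.eval (n : ℝ) = ((pol l ⊥).map (Int.castRingHom ℝ)).eval (n : ℝ)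
      have h1 : ((pol l ⊥).map (Int.castRingHom ℝ)).eval (n : ℝ) =
          (((pol l ⊥).eval (n : ℤ) : ℤ) : ℝ) := by
        have := Polynomial.eval_map_apply (Int.castRingHom ℝ) (p := pol l ⊥) (n : ℤ)
        simp at this ⊢
      rw [h1, hp, pol_eval]
      have e : G.Coloring (Fin n) ≃ {c : V → Fin n // Good l ⊥ c} :=
        { toFun := fun C => ⟨C, bot_le, fun e he => C.valid ((hl e).1 he)⟩
          invFun := fun c => SimpleGraph.Coloring.mk c.1
            (fun {x y} h => c.2.2 (x, y) ((hl (x, y)).2 h))
          left_inv := fun C => by ext x; rfl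
          right_inv := fun c => by ext x; rfl }
      rw [Nat.card_congr e, Nat.card_eq_fintype_card, Fintype.card_subtype]
      push_cast
      rfl
    · exact Set.infinite_range_of_injective Nat.cast_injective
  rw [hP]
  intro h0
  have h1 := conj_zero _ h0
  have h2 := pol_sign (Real.goldenConj + 1) (by linarith [Real.neg_one_lt_goldenConj])
    (by linarith [Real.goldenConj_neg]) l ⊥ (fun e he hc => by
      have h3 := (hl e).1 he
      have h4 : e.1 = e.2 := hc
      exact h3.ne h4)
  rw [h1, mul_zero] at h2
  exact lt_irrefl _ h2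

end Pool.Agent.Gold
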