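import Mathlib
import Pool.Agent.Gold.Cone
import Pool.Agent.Gold.Zero

/-!
Positivity of the chromatic polynomial of planar graphs at `φ + 2`, `φ` the golden ratio
(Tutte's theorem), from a grid model.
-/

set_option autoImplicit false

namespace Pool.Agent.Gold

open Helper70.BLB Polynomial
open scoped Classical

/-- The product of the odd generators. -/
def Od {M : Type*} [Monoid M] (e : ℕ → M) : ℕ → M
  | 0 => 1
  | (m + 1) => e (2 * m + 1) * Od e m

theorem Od_comm {M : Type*} [Monoid M] {d : M} {e : ℕ → M} (H : TLRel d e) :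
    ∀ (m j : ℕ), 2 * m + 1 ≤ j → Od e m * e j = e j * Od e m
  | 0, j, _ => by simp [Od]
  | (m + 1), j, hj => by
    have h1 := H.comm (2 * m + 1) j (by omega) (by omega)
    have IH := Od_comm H m j (by omega)
    show e (2 * m + 1) * Od e m * e j = e j * (e (2 * m + 1) * Od e m)
    rw [mul_assoc, IH, ← mul_assoc, h1, mul_assoc]

theorem OXO {M : Type*} [Monoid M] {d : M} {e : ℕ → M} (H : TLRel d e) :
    ∀ m : ℕ, Od e m * TLX e (2 * m) * Od e m = Od e m
  | 0 => by simp [Od, TLX]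
  | (m + 1) => by
    have IH := OXO H m
    have hX : TLX e (2 * (m + 1)) = e (2 * m + 2) * TLX e (2 * m) := rfl
    have hO : Od e (m + 1) = e (2 * m + 1) * Od e m := rfl
    have c1 := Od_comm H m (2 * m + 1) le_rfl
    have c2 := Od_comm H m (2 * m + 2) (by omega)
    have up := H.up (2 * m + 1) (by omega)
    rw [hX, hO]
    calc e (2 * m + 1) * Od e m * (e (2 * m + 2) * TLX e (2 * m)) * (e (2 * m + 1) * Od e m)
        = e (2 * m + 1) * (Od e m * e (2 * m + 2)) * TLX e (2 * m) *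
            (e (2 * m + 1) * Od e m) := by simp only [mul_assoc]
      _ = e (2 * m + 1) * (e (2 * m + 2) * Od e m) * TLX e (2 * m) *
            (Od e m * e (2 * m + 1)) := by rw [c2, c1]
      _ = e (2 * m + 1) * e (2 * m + 2) * (Od e m * TLX e (2 * m) * Od e m) *
            e (2 * m + 1) := by simp only [mul_assoc]
      _ = e (2 * m + 1) * e (2 * m + 2) * (Od e m * e (2 * m + 1)) := by
            rw [IH]; simp only [mul_assoc]
      _ = e (2 * m + 1) * e (2 * m + 2) * e (2 * m + 1) * Od e m := by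
            rw [c1]; simp only [mul_assoc]
      _ = e (2 * m + 1) * Od e m := by rw [up]

section

variable {L : Type} [Fintype L] {adj : L → Bool → L → Bool} {K : Ker L} {q : ℝ}

/-- The trivial configuration. -/
def xf : ℕ → Bool := fun _ => false

/-- The indicator of the trivial configuration. -/
noncomputable def fI (l0 : L) : Fn L := fun x a => if x = xf ∧ a = (fun _ => l0) then 1 else 0

theorem AD_triv {l0 : L} (h : adj l0 false l0 = true) : AD adj xf (fun _ => l0) := fun _ => h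

theorem JJ_fI {l0 : L} (h : adj l0 false l0 = true) (i : ℕ) : JJ adj i (fI l0) = fI l0 := by
  funext x a
  rw [JJ_apply]
  by_cases hc : x = xf ∧ a = fun _ => l0
  · obtain ⟨rfl, rfl⟩ := hc
    rw [if_pos ⟨AD_triv h, rfl⟩]
  · unfold fI
    rw [if_neg hc, ite_self]

theorem JJ_at {l0 : L} (h : adj l0 false l0 = true) (i : ℕ) (g : Fn L) :
    JJ adj i g xf (fun _ => l0) = g xf (fun _ => l0) := by
  rw [JJ_apply, if_pos ⟨AD_triv h, rfl⟩]

theorem Od_fI {l0 : L} (h : adj l0 false l0 = true) (δ : ℝ) : ∀ m : ℕ,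
    Od (EE adj K δ) m (fI l0) = δ ^ m • fI l0
  | 0 => by simp [Od]
  | (m + 1) => by
    show (EE adj K δ (2 * m + 1)) (Od (EE adj K δ) m (fI l0)) = _
    rw [Od_fI h δ m, EE_odd, LinearMap.smul_apply, map_smul, JJ_fI h, smul_smul, pow_succ,
      mul_comm]

theorem Od_at {l0 : L} (h : adj l0 false l0 = true) (δ : ℝ) : ∀ (m : ℕ) (g : Fn L),
    Od (EE adj K δ) m g xf (fun _ => l0) = δ ^ m * g xf (fun _ => l0)
  | 0, g => by simp [Od]
  | (m + 1), g => by
    show (EE adj K δ (2 * m + 1)) (Od (EE adj K δ) m g) xf (fun _ => l0) = _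
    rw [EE_odd]
    show δ * JJ adj m (Od (EE adj K δ) m g) xf (fun _ => l0) = _
    rw [JJ_at h, Od_at h δ m g, pow_succ]
    ring

theorem X_base (H : Loc adj K q) {δ : ℝ} (hδ : 0 < δ) (hq : δ ^ 2 = q) {l0 : L}
    (h : adj l0 false l0 = true) (m : ℕ) :
    TLX (EE adj K δ) (2 * m) (fI l0) xf (fun _ => l0) = (δ ^ m)⁻¹ := by
  have h1 := OXO (EE_TLRel H hδ hq) m
  have h2 := congrArg (fun z : Module.End ℝ (Fn L) => z (fI l0) xf (fun _ => l0)) h1
  simp only [Module.End.mul_apply] at h2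
  rw [Od_at h, Od_at h, Od_fI h, map_smul] at h2
  have h3 : (δ ^ m • TLX (EE adj K δ) (2 * m) (fI l0)) xf (fun _ => l0) =
      δ ^ m * TLX (EE adj K δ) (2 * m) (fI l0) xf (fun _ => l0) := rfl
  have h4 : fI l0 xf (fun _ => l0) = 1 := by
    unfold fI
    rw [if_pos ⟨rfl, rfl⟩]
  rw [h3, h4] at h2
  have h5 : δ ^ m ≠ 0 := (pow_pos hδ m).ne'
  field_simp
  have h6 := mul_left_cancel₀ h5 h2
  linarith

end

/-- The value of an operation. -/
theorem opval {L : Type} [Fintype L] {adj : L → Bool → L → Bool} {K : Ker L} {δ : ℝ}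
    (hδ : δ ≠ 0) (m : ℕ) (o : Op) (ho : o.ok m) :
    Op.val (δ • (1 : Module.End ℝ (Fn L))) (δ⁻¹ • 1) (EE adj K δ) o =
      match o with
      | .J i => JJ adj i
      | .H i => 1 - JJ adj i
      | .D i => DD adj K (i - 1)
      | .V i => DD adj K (i - 1) - 1 := by
  cases o with
  | J i => simp only [Op.val]; rw [EE_odd, smul_mul_smul_comm, one_mul, inv_mul_cancel₀ hδ, one_smul]
  | H i => simp only [Op.val]; rw [EE_odd, smul_mul_smul_comm, one_mul, inv_mul_cancel₀ hδ, one_smul]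
  | D i =>
    obtain ⟨h1, _⟩ : 1 ≤ i ∧ i ≤ m := ho
    obtain ⟨j, rfl⟩ : ∃ j, i = j + 1 := ⟨i - 1, by omega⟩
    simp only [Op.val]
    rw [EE_even, smul_mul_smul_comm, one_mul, mul_inv_cancel₀ hδ, one_smul]
    rfl
  | V i =>
    obtain ⟨h1, _⟩ : 1 ≤ i ∧ i ≤ m := ho
    obtain ⟨j, rfl⟩ : ∃ j, i = j + 1 := ⟨i - 1, by omega⟩
    simp only [Op.val]
    rw [EE_even, smul_mul_smul_comm, one_mul, mul_inv_cancel₀ hδ, one_smul]
    rfl

section

variable {δ1 δ2 : ℝ} (h1 : 0 < δ1) (h2 : 0 < δ2)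
include h1 h2

theorem pres_op (m : ℕ) (o : Op) (ho : o.ok m) :
    Pres (Op.val (δ1 • 1) (δ1⁻¹ • 1) (EE adm K1 δ1) o)
      (Op.val (δ2 • 1) (δ2⁻¹ • 1) (EE adm2 K2 δ2) o) := by
  rw [opval h1.ne' m o ho, opval h2.ne' m o ho]
  cases o with
  | J i => exact pres_J i
  | H i => exact pres_H i
  | D i => exact pres_D (i - 1)
  | V i => exact pres_V (i - 1)

theorem pres_W (m : ℕ) : ∀ (ops : List Op), (∀ o ∈ ops, o.ok m) →
    Pres (Wval (δ1 • 1) (δ1⁻¹ • 1) (EE adm K1 δ1) ops)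
      (Wval (δ2 • 1) (δ2⁻¹ • 1) (EE adm2 K2 δ2) ops)
  | [], _ => by simpa [Wval] using Pres.one
  | (o :: ops), hok => by
    have IH := pres_W m ops (fun o ho => hok o (List.mem_cons_of_mem _ ho))
    have ho := pres_op h1 h2 m o (hok o List.mem_cons_self)
    have := ho.mul IH
    simpa [Wval] using this

theorem pres_X : ∀ (m : ℕ), Pres (TLX (EE adm K1 δ1) (2 * m)) (TLX (EE adm2 K2 δ2) (2 * m))
  | 0 => by simpa [TLX] using Pres.one
  | (m + 1) => by
    have e1 : TLX (EE adm K1 δ1) (2 * (m + 1)) = EE adm K1 δ1 (2 * (m + 1)) *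
      TLX (EE adm K1 δ1) (2 * m) := rfl
    have e2 : TLX (EE adm2 K2 δ2) (2 * (m + 1)) = EE adm2 K2 δ2 (2 * (m + 1)) *
      TLX (EE adm2 K2 δ2) (2 * m) := rfl
    rw [e1, e2, EE_even, EE_even]
    exact ((pres_D m).smul (inv_ne_zero h1.ne') (inv_pos.2 h2)).mul (pres_X m)

end

theorem Sup_fI : Sup (fI false) := by
  intro x a h
  unfold fI
  rw [if_neg]
  rintro ⟨rfl, rfl⟩
  exact h (AD_triv rfl)

theorem fsq_fI : fsq (fI false) = fI (false, false) := by
  funext x a
  rw [fsq_apply]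
  unfold fI
  by_cases h : x = xf ∧ a = fun _ => (false, false)
  · obtain ⟨rfl, rfl⟩ := h
    rw [if_pos ⟨rfl, rfl⟩, if_pos ⟨rfl, rfl⟩, mul_one]
  · rw [if_neg h]
    by_cases hx : x = xf
    · by_cases ha : (fun i => (a i).1) = fun _ : ℕ => false
      · rw [if_neg (c := x = xf ∧ (fun i => (a i).2) = fun _ => false), mul_zero]
        rintro ⟨_, hb⟩
        apply h
        refine ⟨hx, ?_⟩
        funext i
        exact Prod.ext (congrFun ha i) (congrFun hb i)
      · rw [if_neg (fun h' => ha h'.2), zero_mul]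
    · rw [if_neg (fun h' => hx h'.1), zero_mul]

/-- Comparison of the evaluations. -/
theorem golden_square {δ1 δ2 : ℝ} (h1 : 0 < δ1) (h2 : 0 < δ2)
    (hq1 : δ1 ^ 2 = Real.goldenRatio + 1) (hq2 : δ2 ^ 2 = Real.goldenRatio + 2) (m : ℕ)
    (ops : List Op) (hok : ∀ o ∈ ops, o.ok m) (Q : ℝ[X]) (k : ℕ)
    (e1 : δ1 ^ k • (TLX (EE adm K1 δ1) (2 * m) * Wval (δ1 • 1) (δ1⁻¹ • 1) (EE adm K1 δ1) ops *
      TLX (EE adm K1 δ1) (2 * m)) = Q.eval δ1 • TLX (EE adm K1 δ1) (2 * m))
    (e2 : δ2 ^ k • (TLX (EE adm2 K2 δ2) (2 * m) *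
      Wval (δ2 • 1) (δ2⁻¹ • 1) (EE adm2 K2 δ2) ops *
      TLX (EE adm2 K2 δ2) (2 * m)) = Q.eval δ2 • TLX (EE adm2 K2 δ2) (2 * m))
    (hQ : Q.eval δ1 ≠ 0) : 0 < Q.eval δ2 := by
  have hP := ((pres_X h1 h2 m).mul (pres_W h1 h2 m ops hok)).mul (pres_X h1 h2 m)
  obtain ⟨_, c, hc, κ, hκ, hdom⟩ := hP _ Sup_fI
  rw [fsq_fI] at hdom
  have g1 := congrArg (fun z : Module.End ℝ (Fn Bool) => z (fI false) xf (fun _ => false)) e1
  have g2 := congrArg (fun z : Module.End ℝ (Fn (Bool × Bool)) =>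
    z (fI (false, false)) xf (fun _ => (false, false))) e2
  have b1 := X_base loc1 h1 hq1 (l0 := false) rfl m
  have b2 := X_base loc2 h2 hq2 (l0 := (false, false)) rfl m
  set Y1 := TLX (EE adm K1 δ1) (2 * m) * Wval (δ1 • 1) (δ1⁻¹ • 1) (EE adm K1 δ1) ops *
      TLX (EE adm K1 δ1) (2 * m) with hY1
  set Y2 := TLX (EE adm2 K2 δ2) (2 * m) * Wval (δ2 • 1) (δ2⁻¹ • 1) (EE adm2 K2 δ2) ops *
      TLX (EE adm2 K2 δ2) (2 * m) with hY2
  have g1' : δ1 ^ k * Y1 (fI false) xf (fun _ => false) = Q.eval δ1 * (δ1 ^ m)⁻¹ := by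
    rw [← b1]; exact g1
  have g2' : δ2 ^ k * Y2 (fI (false, false)) xf (fun _ => (false, false)) =
      Q.eval δ2 * (δ2 ^ m)⁻¹ := by
    rw [← b2]; exact g2
  have hy1 : Y1 (fI false) xf (fun _ => false) ≠ 0 := by
    intro h0
    rw [h0, mul_zero] at g1'
    exact mul_ne_zero hQ (inv_ne_zero (pow_pos h1 m).ne') g1'.symm
  have hy2 : 0 < Y2 (fI (false, false)) xf (fun _ => (false, false)) := by
    rw [hdom]
    have h3 := Cone.nonneg hκ xf (fun _ => false)
    have h4 : (c • fsq (Y1 (fI false)) + κ) xf (fun _ => (false, false)) =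
        c * (Y1 (fI false) xf (fun _ => false) * Y1 (fI false) xf (fun _ => false)) +
          κ xf (fun _ => (false, false)) := rfl
    rw [h4]
    have h5 : 0 < Y1 (fI false) xf (fun _ => false) * Y1 (fI false) xf (fun _ => false) :=
      mul_self_pos.2 hy1
    have h6 : 0 < c * (Y1 (fI false) xf (fun _ => false) *
      Y1 (fI false) xf (fun _ => false)) := mul_pos hc h5
    linarith
  have h7 : 0 < Q.eval δ2 * (δ2 ^ m)⁻¹ := by
    rw [← g2']
    exact mul_pos (pow_pos h2 k) hy2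
  exact (pos_iff_pos_of_mul_pos h7).2 (inv_pos.2 (pow_pos h2 m))

/-- The two Fibonacci representations. -/
noncomputable def fibRep : Bool → TLRep
  | false => { A := Module.End ℝ (Fn Bool)
               δ := Real.goldenRatio
               hδ := Real.goldenRatio_pos.ne'
               e := EE adm K1 Real.goldenRatio
               rel := EE_TLRel loc1 Real.goldenRatio_pos Real.goldenRatio_sq }
  | true => { A := Module.End ℝ (Fn (Bool × Bool))
              δ := Real.sqrt (Real.goldenRatio + 2)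
              hδ := (Real.sqrt_pos.2 (by linarith [Real.goldenRatio_pos])).ne'
              e := EE adm2 K2 (Real.sqrt (Real.goldenRatio + 2))
              rel := EE_TLRel loc2 (Real.sqrt_pos.2 (by linarith [Real.goldenRatio_pos]))
                (Real.sq_sqrt (by linarith [Real.goldenRatio_pos])) }

/-- Tutte's theorem for graphs with a grid model. -/
theorem tutte_grid {V : Type} [Fintype V] {G : SimpleGraph V} {r : V} {k T : ℕ}
    {L : ℕ → ℕ → Option V} (M : GridModel G r k T L) (hk : 1 ≤ k) (hT : 1 ≤ T) (p : ℝ[X])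
    (hp : ∀ n : ℕ, p.eval (n : ℝ) = (Nat.card (G.Coloring (Fin n)) : ℝ)) :
    0 < p.eval (Real.goldenRatio + 2) := by
  obtain ⟨ops, Q, K', a, b, hok, hF, hkey⟩ := grid_key M hk hT p hp fibRep
  have hφ := Real.goldenRatio_pos
  have hs : 0 < Real.sqrt (Real.goldenRatio + 2) := Real.sqrt_pos.2 (by linarith)
  have hs2 : Real.sqrt (Real.goldenRatio + 2) ^ 2 = Real.goldenRatio + 2 :=
    Real.sq_sqrt (by linarith)
  have e1 := hF false
  have e2 := hF true
  have hz := chrom_ne_zero_golden G p hp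
  have k1 := hkey Real.goldenRatio
  have k2 := hkey (Real.sqrt (Real.goldenRatio + 2))
  rw [Real.goldenRatio_sq] at k1
  rw [hs2] at k2
  have hQ1 : Q.eval Real.goldenRatio ≠ 0 := by
    intro h0
    rw [h0, zero_mul] at k1
    exact mul_ne_zero (pow_pos hφ a).ne' hz k1
  have hQ2 := golden_square hφ hs Real.goldenRatio_sq hs2 (k + 1) ops hok Q K' e1 e2 hQ1
  have h3 : 0 < Real.sqrt (Real.goldenRatio + 2) ^ a * p.eval (Real.goldenRatio + 2) := by
    rw [k2]
    exact mul_pos hQ2 (pow_pos hs b)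
  exact (pos_iff_pos_of_mul_pos h3).1 (pow_pos hs a)

end Pool.Agent.Gold
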