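import Mathlib

/-!
The chromatic polynomial at `1 + y`, by splitting off the colour class of a vertex.
-/

set_option autoImplicit false

namespace Pool.Agent.Gold

open Polynomial

/-- The graph `G` with the vertices of `I` isolated. -/
def isoS {V : Type} (G : SimpleGraph V) (I : Finset V) : SimpleGraph V where
  Adj u v := G.Adj u v ∧ u ∉ I ∧ v ∉ I
  symm := ⟨fun u v h => ⟨h.1.symm, h.2.2, h.2.1⟩⟩
  loopless := ⟨fun u h => G.loopless.irrefl u h.1⟩

theorem isoS_le {V : Type} (G : SimpleGraph V) (I : Finset V) : isoS G I ≤ G :=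
  fun _ _ h => h.1

/-- colourings as functions -/
def colEquiv {V α : Type} (G : SimpleGraph V) :
    G.Coloring α ≃ {f : V → α // ∀ u v, G.Adj u v → f u ≠ f v} where
  toFun C := ⟨C, fun _ _ h => C.valid h⟩
  invFun f := SimpleGraph.Coloring.mk f.1 fun h => f.2 _ _ h
  left_inv _ := rfl
  right_inv _ := rfl

/-- the colourings of `G - I` -/
abbrev KCol {V : Type} (G : SimpleGraph V) (I : Finset V) (n : ℕ) : Type :=
  {g : {v // v ∉ I} → Fin n // ∀ u v, G.Adj u.1 v.1 → g u ≠ g v}

open Classical in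
/-- colourings of the graph with isolated vertices `I` -/
noncomputable def isoEquiv {V : Type} (G : SimpleGraph V) (I : Finset V) (n : ℕ) :
    {f : V → Fin n // ∀ u v, (isoS G I).Adj u v → f u ≠ f v} ≃
      ({v // v ∈ I} → Fin n) × KCol G I n where
  toFun f := (fun v => f.1 v.1, ⟨fun v => f.1 v.1, fun u v h => f.2 _ _ ⟨h, u.2, v.2⟩⟩)
  invFun a := ⟨fun v => if h : v ∈ I then a.1 ⟨v, h⟩ else a.2.1 ⟨v, h⟩, fun u v h => by
    beta_reduce
    rw [dif_neg h.2.1, dif_neg h.2.2]
    exact a.2.2 ⟨u, h.2.1⟩ ⟨v, h.2.2⟩ h.1⟩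
  left_inv f := by
    apply Subtype.ext
    funext v
    by_cases h : v ∈ I <;> simp [h]
  right_inv a := by
    obtain ⟨a, g, hg⟩ := a
    refine Prod.ext ?_ (Subtype.ext ?_)
    · funext v
      simp [v.2]
    · funext v
      simp [v.2]

open Classical in
/-- colourings with colour class `I` of the last colour -/
noncomputable def lastEquiv {V : Type} (G : SimpleGraph V) (I : Finset V) (n : ℕ)
    (hI : ∀ u ∈ I, ∀ v ∈ I, ¬ G.Adj u v) :
    {f : V → Fin (n + 1) // (∀ u v, G.Adj u v → f u ≠ f v) ∧ ∀ v, f v = Fin.last n ↔ v ∈ I} ≃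
      KCol G I n where
  toFun f := ⟨fun v => (f.1 v.1).castPred fun h => v.2 ((f.2.2 v.1).1 h), fun u v h h' =>
    f.2.1 _ _ h (Fin.castPred_inj.1 h')⟩
  invFun g := ⟨fun v => if h : v ∈ I then Fin.last n else (g.1 ⟨v, h⟩).castSucc, by
    refine ⟨fun u v h => ?_, fun v => ?_⟩
    · beta_reduce
      by_cases hu : u ∈ I
      · by_cases hv : v ∈ I
        · exact absurd h (hI u hu v hv)
        · rw [dif_pos hu, dif_neg hv]
          exact (Fin.castSucc_lt_last _).ne'
      · by_cases hv : v ∈ I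
        · rw [dif_neg hu, dif_pos hv]
          exact (Fin.castSucc_lt_last _).ne
        · rw [dif_neg hu, dif_neg hv]
          exact fun h' => g.2 ⟨u, hu⟩ ⟨v, hv⟩ h (Fin.castSucc_injective _ h')
    · by_cases hv : v ∈ I
      · simp [hv]
      · beta_reduce
        rw [dif_neg hv]
        exact ⟨fun h => absurd h (Fin.castSucc_lt_last _).ne, fun h => absurd h hv⟩⟩
  left_inv f := by
    apply Subtype.ext
    funext v
    by_cases h : v ∈ I
    · simp [h, (f.2.2 v).2 h]
    · simp [h]
  right_inv g := by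
    apply Subtype.ext
    funext v
    simp [v.2]

theorem card_iso {V : Type} [Fintype V] (G : SimpleGraph V) (I : Finset V) (n : ℕ) :
    Nat.card ((isoS G I).Coloring (Fin n)) = n ^ I.card * Nat.card (KCol G I n) := by
  classical
  rw [Nat.card_congr ((colEquiv _).trans (isoEquiv G I n)), Nat.card_prod]
  congr 1
  rw [Nat.card_eq_fintype_card, Fintype.card_fun, Fintype.card_fin, Fintype.card_coe]

open Classical in
theorem card_split {V : Type} [Fintype V] (G : SimpleGraph V) (t : V) (n : ℕ) :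
    Nat.card (G.Coloring (Fin (n + 1))) = (n + 1) *
      ∑ I ∈ Finset.univ.filter (fun I : Finset V => t ∈ I ∧ ∀ u ∈ I, ∀ v ∈ I, ¬ G.Adj u v),
        Nat.card (KCol G I n) := by
  let A : Finset (V → Fin (n + 1)) := Finset.univ.filter fun f => ∀ u v, G.Adj u v → f u ≠ f v
  have h1 : Nat.card (G.Coloring (Fin (n + 1))) = A.card := by
    rw [Nat.card_congr (colEquiv G), Nat.card_eq_fintype_card, Fintype.card_subtype]
  have h2 : A.card = ∑ c : Fin (n + 1), (A.filter fun f => f t = c).card :=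
    Finset.card_eq_sum_card_fiberwise (f := fun f : V → Fin (n + 1) => f t)
      (t := Finset.univ) fun _ _ => Finset.mem_coe.2 (Finset.mem_univ _)
  have h3 : ∀ c : Fin (n + 1), (A.filter fun f => f t = c).card =
      (A.filter fun f => f t = Fin.last n).card := by
    intro c
    refine Finset.card_bij' (fun f _ => fun v => Equiv.swap c (Fin.last n) (f v))
      (fun f _ => fun v => Equiv.swap c (Fin.last n) (f v)) ?_ ?_ ?_ ?_
    · intro f hf
      simp only [A, Finset.mem_filter, Finset.mem_univ, true_and] at hf ⊢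
      refine ⟨fun u v h h' => hf.1 u v h ((Equiv.swap c (Fin.last n)).injective h'), ?_⟩
      rw [hf.2, Equiv.swap_apply_left]
    · intro f hf
      simp only [A, Finset.mem_filter, Finset.mem_univ, true_and] at hf ⊢
      refine ⟨fun u v h h' => hf.1 u v h ((Equiv.swap c (Fin.last n)).injective h'), ?_⟩
      rw [hf.2, Equiv.swap_apply_right]
    · intro f _
      funext v
      simp
    · intro f _
      funext v
      simp
  have h4 : (A.filter fun f => f t = Fin.last n).card =
      ∑ I ∈ Finset.univ.filter (fun I : Finset V => t ∈ I ∧ ∀ u ∈ I, ∀ v ∈ I, ¬ G.Adj u v),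
        ((A.filter fun f => f t = Fin.last n).filter fun f =>
          (Finset.univ.filter fun v => f v = Fin.last n) = I).card := by
    refine Finset.card_eq_sum_card_fiberwise
      (f := fun f : V → Fin (n + 1) => Finset.univ.filter fun v => f v = Fin.last n)
      fun f hf => ?_
    simp only [A, Finset.coe_filter, Finset.mem_filter, Finset.mem_univ, true_and,
      Set.mem_setOf_eq] at hf ⊢
    refine ⟨hf.2, fun u hu v hv h => hf.1 u v h (hu.trans hv.symm)⟩
  have h5 : ∀ I ∈ Finset.univ.filter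
      (fun I : Finset V => t ∈ I ∧ ∀ u ∈ I, ∀ v ∈ I, ¬ G.Adj u v),
      ((A.filter fun f => f t = Fin.last n).filter fun f =>
          (Finset.univ.filter fun v => f v = Fin.last n) = I).card = Nat.card (KCol G I n) := by
    intro I hI
    rw [Finset.mem_filter] at hI
    rw [← Nat.card_congr (lastEquiv G I n hI.2.2), Nat.card_eq_fintype_card,
      Fintype.card_subtype]
    congr 1
    ext f
    simp only [A, Finset.mem_filter, Finset.mem_univ, true_and]
    constructor
    · rintro ⟨⟨h6, -⟩, h7⟩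
      refine ⟨h6, fun v => ?_⟩
      rw [← h7]
      simp
    · rintro ⟨h6, h7⟩
      refine ⟨⟨h6, (h7 t).2 hI.2.1⟩, ?_⟩
      ext v
      simp [h7 v]
  rw [h1, h2, Finset.sum_congr rfl fun c _ => h3 c, Finset.sum_const, Finset.card_univ,
    Fintype.card_fin, h4, Finset.sum_congr rfl h5, smul_eq_mul]

open Classical in
/-- Splitting off the colour class `I` of the vertex `t`. -/
theorem split_eval {V : Type} [Fintype V] (G : SimpleGraph V) (t : V) (P : Finset V → ℝ[X])
    (hP : ∀ I (n : ℕ), (P I).eval (n : ℝ) = (Nat.card ((isoS G I).Coloring (Fin n)) : ℝ))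
    (p : ℝ[X]) (hp : ∀ n : ℕ, p.eval (n : ℝ) = (Nat.card (G.Coloring (Fin n)) : ℝ)) (y : ℝ) :
    y ^ Fintype.card V * p.eval (1 + y) = (1 + y) *
      ∑ I ∈ Finset.univ.filter (fun I : Finset V => t ∈ I ∧ ∀ u ∈ I, ∀ v ∈ I, ¬ G.Adj u v),
        y ^ (Fintype.card V - I.card) * (P I).eval y := by
  have hpoly : (X : ℝ[X]) ^ Fintype.card V * p.comp (1 + X) = (1 + X) *
      ∑ I ∈ Finset.univ.filter (fun I : Finset V => t ∈ I ∧ ∀ u ∈ I, ∀ v ∈ I, ¬ G.Adj u v),
        X ^ (Fintype.card V - I.card) * P I := by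
    refine Polynomial.eq_of_infinite_eval_eq _ _ (Set.infinite_of_injective_forall_mem
      (f := fun n : ℕ => (n : ℝ)) Nat.cast_injective fun n => ?_)
    simp only [Set.mem_setOf_eq, eval_mul, eval_pow, eval_X, eval_comp, eval_add, eval_one,
      eval_finset_sum, hP]
    have h1 : (1 : ℝ) + (n : ℝ) = ((n + 1 : ℕ) : ℝ) := by push_cast; ring
    rw [h1, hp, card_split G t n]
    have h2 : ∀ I ∈ Finset.univ.filter
        (fun I : Finset V => t ∈ I ∧ ∀ u ∈ I, ∀ v ∈ I, ¬ G.Adj u v),
        (n : ℝ) ^ (Fintype.card V - I.card) * (Nat.card ((isoS G I).Coloring (Fin n)) : ℝ) =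
          (n : ℝ) ^ Fintype.card V * (Nat.card (KCol G I n) : ℝ) := by
      intro I _
      rw [card_iso]
      push_cast
      rw [← mul_assoc, ← pow_add, Nat.sub_add_cancel (Finset.card_le_univ I)]
    rw [Finset.sum_congr rfl h2, ← Finset.mul_sum]
    push_cast
    ring
  have h := congrArg (eval y) hpoly
  simpa only [eval_mul, eval_pow, eval_X, eval_comp, eval_add, eval_one, eval_finset_sum] using h

/-- Positivity at `1 + y` from nonnegativity at `y` of the graphs without the independent sets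
containing `t`. -/
theorem split_pos {V : Type} [Fintype V] (G : SimpleGraph V) (t : V) {y : ℝ} (hy : 0 < y)
    (P : Finset V → ℝ[X])
    (hP : ∀ I (n : ℕ), (P I).eval (n : ℝ) = (Nat.card ((isoS G I).Coloring (Fin n)) : ℝ))
    (h0 : ∀ I : Finset V, t ∈ I → (∀ u ∈ I, ∀ v ∈ I, ¬ G.Adj u v) → 0 ≤ (P I).eval y)
    (h1 : 0 < (P {t}).eval y)
    (p : ℝ[X]) (hp : ∀ n : ℕ, p.eval (n : ℝ) = (Nat.card (G.Coloring (Fin n)) : ℝ)) :
    0 < p.eval (1 + y) := by
  classical
  have h := split_eval G t P hP p hp y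
  have hmem : ({t} : Finset V) ∈ Finset.univ.filter
      (fun I : Finset V => t ∈ I ∧ ∀ u ∈ I, ∀ v ∈ I, ¬ G.Adj u v) := by
    rw [Finset.mem_filter]
    refine ⟨Finset.mem_univ _, Finset.mem_singleton_self t, ?_⟩
    intro u hu v hv
    rw [Finset.mem_singleton] at hu hv
    subst hu; subst hv
    exact G.loopless.irrefl _
  have hpos : 0 < ∑ I ∈ Finset.univ.filter
      (fun I : Finset V => t ∈ I ∧ ∀ u ∈ I, ∀ v ∈ I, ¬ G.Adj u v),
        y ^ (Fintype.card V - I.card) * (P I).eval y := by
    refine Finset.sum_pos' (fun I hI => ?_) ⟨{t}, hmem, ?_⟩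
    · rw [Finset.mem_filter] at hI
      exact mul_nonneg (pow_nonneg hy.le _) (h0 I hI.2.1 hI.2.2)
    · exact mul_pos (pow_pos hy _) h1
  have h2 : 0 < y ^ Fintype.card V * p.eval (1 + y) := by
    rw [h]
    exact mul_pos (by linarith) hpos
  exact (pos_iff_pos_of_mul_pos h2).1 (pow_pos hy _)

end Pool.Agent.Gold
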