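import Mathlib
import Pool.Agent.Gold.Pos
import Pool.Agent.Gold.Split
import Pool.Agent.Helper70.BLB.Final
import Pool.Agent.Helper55.BLD.ColCount

/-!
Positivity of the chromatic polynomial at `φ + 3` for planar and apex graphs.
-/

set_option autoImplicit false

namespace Pool.Agent.Gold

open Helper70.BLB Polynomial

theorem GridModel.mono {V : Type} {G G' : SimpleGraph V} (h : G' ≤ G) {r : V} {k T : ℕ}
    {L : ℕ → ℕ → Option V} (M : GridModel G r k T L) : GridModel G' r k T L :=
  ⟨M.frame, M.conn, M.nonempty, fun u v huv => M.edge u v (h huv)⟩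

theorem chrom_empty {V : Type} [IsEmpty V] (G : SimpleGraph V) (p : ℝ[X])
    (hp : ∀ n : ℕ, p.eval (n : ℝ) = (Nat.card (G.Coloring (Fin n)) : ℝ)) : p = 1 := by
  apply Polynomial.eq_of_infinite_eval_eq
  apply Set.Infinite.mono (s := Set.range (fun n : ℕ => (n : ℝ)))
  · rintro _ ⟨N, rfl⟩
    show eval (N : ℝ) p = eval (N : ℝ) 1
    rw [hp N, eval_one]
    have : Nat.card (G.Coloring (Fin N)) = 1 := by
      rw [Nat.card_eq_one_iff_unique]
      refine ⟨⟨fun a b => RelHom.ext fun v => (IsEmpty.false v).elim⟩,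
        ⟨SimpleGraph.Coloring.mk (fun v => (IsEmpty.false v).elim)
          (fun {v} => (IsEmpty.false v).elim)⟩⟩
    rw [this]
    simp
  · exact Set.infinite_range_of_injective Nat.cast_injective

/-- Tutte's theorem for the subgraphs of a drawn graph. -/
theorem tutte_sub {V : Type} [Fintype V] {G G' : SimpleGraph V} {f : V → ℝ × ℝ}
    {γ : V → V → ℝ → ℝ × ℝ} (D : Drawing G f γ) (h : G' ≤ G) (p : ℝ[X])
    (hp : ∀ n : ℕ, p.eval (n : ℝ) = (Nat.card (G'.Coloring (Fin n)) : ℝ)) :
    0 < p.eval (Real.goldenRatio + 2) := by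
  rcases isEmpty_or_nonempty V with hV | ⟨⟨r⟩⟩
  · rw [chrom_empty G' p hp, eval_one]
    exact one_pos
  · obtain ⟨O, K, M, PM⟩ := D.planeModel r
    obtain ⟨k, T, L, hk, hT, GM⟩ := gridModel_of_planeModel PM
    exact tutte_grid (GridModel.mono h GM) hk hT p hp

open Classical in
/-- Colourings of a graph with an isolated vertex. -/
noncomputable def apexEquiv {V : Type} (G : SimpleGraph V) (r : V) (h : ∀ v, ¬ G.Adj r v)
    (N : ℕ) : G.Coloring (Fin N) ≃ Fin N × (G.induce ({r}ᶜ : Set V)).Coloring (Fin N) where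
  toFun f := (f r, SimpleGraph.Coloring.mk (fun v => f v.1) (fun {u v} huv => f.valid huv))
  invFun z := SimpleGraph.Coloring.mk
    (fun v => if hv : v = r then z.1 else z.2 ⟨v, hv⟩) (by
      intro u v huv
      by_cases hu : u = r
      · exact absurd (hu ▸ huv) (h v)
      · by_cases hv : v = r
        · exact absurd (hv ▸ huv).symm (h u)
        · rw [dif_neg hu, dif_neg hv]
          exact z.2.valid (show (G.induce ({r}ᶜ : Set V)).Adj ⟨u, hu⟩ ⟨v, hv⟩ from huv))
  left_inv f := by
    apply RelHom.ext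
    intro v
    show (if hv : v = r then f r else f v) = f v
    split_ifs with hv
    · rw [hv]
    · rfl
  right_inv z := by
    refine Prod.ext ?_ ?_
    · show (if hv : r = r then z.1 else z.2 ⟨r, hv⟩) = z.1
      rw [dif_pos rfl]
    · apply RelHom.ext
      intro v
      have hv : ¬ v.1 = r := fun h' => v.2 h'
      show (if hv : v.1 = r then z.1 else z.2 ⟨v.1, hv⟩) = z.2 v
      rw [dif_neg hv]

/-- The point `φ + 3`, apex graphs. -/
theorem golden_apex {V : Type} [Fintype V] (G : SimpleGraph V) (r : V)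
    {f : ({r}ᶜ : Set V) → ℝ × ℝ} {γ : ({r}ᶜ : Set V) → ({r}ᶜ : Set V) → ℝ → ℝ × ℝ}
    (D : Drawing (G.induce ({r}ᶜ : Set V)) f γ) (p : ℝ[X])
    (hp : ∀ n : ℕ, p.eval (n : ℝ) = (Nat.card (G.Coloring (Fin n)) : ℝ)) :
    0 < p.eval (1 + (Real.goldenRatio + 2)) := by
  classical
  have hφ := Real.goldenRatio_pos
  choose P hP using fun I : Finset V => Helper55.BLD.exists_chrom (isoS G I)
  have key : ∀ I : Finset V, r ∈ I → 0 < (P I).eval (Real.goldenRatio + 2) := by
    intro I hI
    have hiso : ∀ v, ¬ (isoS G I).Adj r v := fun v h => h.2.1 hI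
    obtain ⟨p', hp'⟩ := Helper55.BLD.exists_chrom ((isoS G I).induce ({r}ᶜ : Set V))
    have h1 := tutte_sub D (G' := (isoS G I).induce ({r}ᶜ : Set V))
      (fun u v h => isoS_le G I h) p' hp'
    have h2 : P I = X * p' := by
      apply Polynomial.eq_of_infinite_eval_eq
      apply Set.Infinite.mono (s := Set.range (fun n : ℕ => (n : ℝ)))
      · rintro _ ⟨N, rfl⟩
        show eval (N : ℝ) (P I) = eval (N : ℝ) (X * p')
        rw [eval_mul, eval_X, hP I N, hp' N]
        unfold Helper55.BLD.nc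
        rw [Nat.card_congr (apexEquiv (isoS G I) r hiso N), Nat.card_prod, Nat.card_eq_fintype_card,
          Fintype.card_fin]
        push_cast
        rfl
      · exact Set.infinite_range_of_injective Nat.cast_injective
    rw [h2, eval_mul, eval_X]
    exact mul_pos (by linarith) h1
  exact split_pos G r (by linarith) P hP (fun I hI _ => (key I hI).le)
    (key {r} (Finset.mem_singleton_self r)) p hp

/-- The point `φ + 3`, subgraphs of drawn graphs. -/
theorem golden_planar {V : Type} [Fintype V] {G H : SimpleGraph V} {f : V → ℝ × ℝ}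
    {γ : V → V → ℝ → ℝ × ℝ} (D : Drawing H f γ) (h : G ≤ H) (p : ℝ[X])
    (hp : ∀ n : ℕ, p.eval (n : ℝ) = (Nat.card (G.Coloring (Fin n)) : ℝ)) :
    0 < p.eval (1 + (Real.goldenRatio + 2)) := by
  classical
  have hφ := Real.goldenRatio_pos
  rcases isEmpty_or_nonempty V with hV | ⟨⟨r⟩⟩
  · rw [chrom_empty G p hp, eval_one]
    exact one_pos
  choose P hP using fun I : Finset V => Helper55.BLD.exists_chrom (isoS G I)
  have key : ∀ I : Finset V, 0 < (P I).eval (Real.goldenRatio + 2) := fun I =>
    tutte_sub D ((isoS_le G I).trans h) (P I) (hP I)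
  exact split_pos G r (by linarith) P hP (fun I _ _ => (key I).le) (key {r}) p hp

theorem golden_value : 1 + (Real.goldenRatio + 2) = (7 + Real.sqrt 5) / 2 := by
  unfold Real.goldenRatio
  ring

end Pool.Agent.Gold
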