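import Mathlib
import Pool.Agent.Gold.Final

/-!
# The Birkhoff-Lewis conjecture at the point `τ + 3` of the interval `(4, 5)`

If `G` or `G - r` for some vertex `r` is planar, then the chromatic polynomial of `G` is positive
at `τ + 3 = (7 + √5) / 2 = 4.618...`, where `τ` is the golden ratio.

The proof uses the identity `P(G, 1 + y) = (1 + y) ∑ P(G - I, y)`, the sum over the independent sets
`I` that contain a given vertex (`Gold/Split.lean`), with the vertex `r` and `y = τ + 2`.
`P(G - I, τ + 2) > 0` is Tutte's theorem, which is proved here in the following way: the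
Temperley-Lieb algebra with loop value `√(τ + 2)` acts on the square of a Fibonacci chain, and the
elementary operations `J`, `1 - J`, `D`, `D - 1` of a planar network map the square of a vector to the
square of its image in the simple Fibonacci chain (loop value `τ`), times a positive constant, plus
a sum of squares (`Gold/Zt.lean`, `Gold/Chain.lean`, `Gold/LocInst.lean`, `Gold/Cone.lean`,
`Gold/Pos.lean`).  So `P(G, τ + 2)` is at least a positive constant times `P(G, τ + 1) ^ 2`, and
`P(G, τ + 1)` is not zero, as its conjugate is the value of the chromatic polynomial at `2 - τ`,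
which is between `0` and `1` (`Gold/Zero.lean`).
-/

set_option autoImplicit false

namespace Pool.Agent.Gold.PointResult

/-- The graph `H` is drawn in the plane: the vertices are different points, the edges are injective
arcs that pass through no further vertex, and arcs of different edges have disjoint interiors. -/
def Drawn {V : Type} (H : SimpleGraph V) : Prop :=
  ∃ (f : V → ℝ × ℝ) (γ : V → V → ℝ → ℝ × ℝ),
    Function.Injective f ∧
    (∀ u v : V, H.Adj u v →
      ContinuousOn (γ u v) (Set.Icc (0 : ℝ) 1) ∧ Set.InjOn (γ u v) (Set.Icc (0 : ℝ) 1) ∧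
      γ u v 0 = f u ∧ γ u v 1 = f v ∧
      ∀ t ∈ Set.Ioo (0 : ℝ) 1, ∀ w : V, γ u v t ≠ f w) ∧
    (∀ u v u' v' : V, H.Adj u v → H.Adj u' v' → s(u, v) ≠ s(u', v') →
      ∀ t ∈ Set.Ioo (0 : ℝ) 1, ∀ t' ∈ Set.Ioo (0 : ℝ) 1, γ u v t ≠ γ u' v' t')

theorem result (V : Type) [Fintype V] [DecidableEq V] (G : SimpleGraph V) (p : Polynomial ℝ)
    (hp : ∀ n : ℕ, p.eval (n : ℝ) = (Nat.card (G.Coloring (Fin n)) : ℝ))
    (hG : Drawn G ∨ ∃ r : V, Drawn (G.induce ({r}ᶜ : Set V))) :
    0 < p.eval ((7 + √5) / 2) := by
  rw [← Gold.golden_value]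
  rcases hG with ⟨f, γ, h1, h2, h3⟩ | ⟨r, f, γ, h1, h2, h3⟩
  · exact Gold.golden_planar (H := G) ⟨h1, h2, h3⟩ le_rfl p hp
  · exact Gold.golden_apex G r ⟨h1, h2, h3⟩ p hp

end Pool.Agent.Gold.PointResult
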